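import Mathlib

/-!
The numerators and denominators of the convergents of an irrational number are coprime integers.
-/

set_option autoImplicit false

namespace Pool.Agent.TH461.EM.CF

open GenContFract

lemma contsAux_int (v : ℝ) (n : ℕ) :
    ∃ a b : ℤ, (GenContFract.of v).contsAux n = ⟨(a : ℝ), (b : ℝ)⟩ := by
  induction n using Nat.strong_induction_on with
  | _ n IH =>
    rcases n with (_ | _ | n)
    · exact ⟨1, 0, by simp [contsAux]⟩
    · exact ⟨⌊v⌋, 1, by simp [contsAux]⟩
    · obtain ⟨a1, b1, h1⟩ := IH (n + 1) (by omega)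
      rcases s_eq : (GenContFract.of v).s.get? n with _ | gp
      · refine ⟨a1, b1, ?_⟩
        have : (GenContFract.of v).contsAux (n + 2) = (GenContFract.of v).contsAux (n + 1) :=
          contsAux_stable_of_terminated (n + 1).le_succ s_eq
        rw [this, h1]
      · obtain ⟨a0, b0, h0⟩ := IH n (by omega)
        obtain ⟨ha, z, hb⟩ : gp.a = 1 ∧ ∃ z : ℤ, gp.b = (z : ℝ) :=
          of_partNum_eq_one_and_exists_int_partDen_eq s_eq
        refine ⟨z * a1 + 1 * a0, z * b1 + 1 * b0, ?_⟩
        rw [contsAux_recurrence s_eq h0 h1, ha, hb]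
        push_cast
        rfl

lemma coprime_conv (v : ℝ) (hv : Irrational v) (n : ℕ) :
    ∃ a b : ℤ, (a : ℝ) = (GenContFract.of v).nums n ∧ (b : ℝ) = (GenContFract.of v).dens n ∧
      IsCoprime a b := by
  obtain ⟨a, b, h⟩ := contsAux_int v (n + 1)
  obtain ⟨a', b', h'⟩ := contsAux_int v (n + 2)
  have hna : (GenContFract.of v).nums n = a := by
    rw [num_eq_conts_a, nth_cont_eq_succ_nth_contAux, h]
  have hnb : (GenContFract.of v).dens n = b := by
    rw [den_eq_conts_b, nth_cont_eq_succ_nth_contAux, h]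
  have hna' : (GenContFract.of v).nums (n + 1) = a' := by
    rw [num_eq_conts_a, nth_cont_eq_succ_nth_contAux, h']
  have hnb' : (GenContFract.of v).dens (n + 1) = b' := by
    rw [den_eq_conts_b, nth_cont_eq_succ_nth_contAux, h']
  have hnt : ¬ (GenContFract.of v).TerminatedAt n := by
    intro ht
    obtain ⟨q, hq⟩ := (terminates_iff_rat v).mp ⟨n, ht⟩
    exact hv ⟨q, hq.symm⟩
  have hdet := (SimpContFract.of v).determinant (n := n) hnt
  have e : ((SimpContFract.of v : SimpContFract ℝ) : GenContFract ℝ) = GenContFract.of v := rfl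
  rw [e, hna, hnb, hna', hnb'] at hdet
  have hdet' : a * b' - b * a' = (-1) ^ (n + 1) := by
    exact_mod_cast hdet
  refine ⟨a, b, hna.symm, hnb.symm, ?_⟩
  rcases neg_one_pow_eq_or ℤ (n + 1) with h1 | h1
  · exact ⟨b', -a', by rw [h1] at hdet'; linarith⟩
  · exact ⟨-b', a', by rw [h1] at hdet'; linarith⟩

/-- If a fraction in lowest terms is a convergent then it is the quotient of the numerator and the
denominator. -/
lemma conv_eq {v : ℝ} {P Q : ℤ} (hPQ : IsCoprime P Q) (hQ : 0 < Q) {n : ℕ}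
    (h : (P : ℝ) / Q = (GenContFract.of v).convs n) {a b : ℤ}
    (ha : (a : ℝ) = (GenContFract.of v).nums n) (hb : (b : ℝ) = (GenContFract.of v).dens n)
    (hab : IsCoprime a b) (hb0 : b ≠ 0) : a.natAbs = P.natAbs ∧ b.natAbs = Q.natAbs := by
  have h1 : (P : ℝ) / Q = a / b := by
    rw [h, conv_eq_num_div_den, ha, hb]
  have hQR : (Q : ℝ) ≠ 0 := by exact_mod_cast hQ.ne'
  have hbR : (b : ℝ) ≠ 0 := by exact_mod_cast hb0
  rw [div_eq_div_iff hQR hbR] at h1
  have h2 : P * b = a * Q := by exact_mod_cast h1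
  constructor
  · apply Nat.dvd_antisymm
    · rw [Int.natAbs_dvd_natAbs]
      exact hab.dvd_of_dvd_mul_right (Dvd.intro _ h2.symm)
    · rw [Int.natAbs_dvd_natAbs]
      exact hPQ.dvd_of_dvd_mul_right (Dvd.intro _ h2)
  · apply Nat.dvd_antisymm
    · rw [Int.natAbs_dvd_natAbs]
      apply hab.symm.dvd_of_dvd_mul_left
      exact Dvd.intro_left _ h2
    · rw [Int.natAbs_dvd_natAbs]
      apply hPQ.symm.dvd_of_dvd_mul_left
      exact Dvd.intro_left _ h2.symm

end Pool.Agent.TH461.EM.CF
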