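import Mathlib

/-!
Lower bound for `x log ((N+1)/N) - y log (N/(N-1))` by simultaneous Padé approximants, `N = 2^20`.
-/

set_option autoImplicit false

open Finset Polynomial
open MeasureTheory (volume)

namespace Pool.Agent.TH461.EM.Dioph

/-- value at a real number -/
noncomputable def ev (Q : ℤ[X]) (t : ℝ) : ℝ := (Q.map (Int.castRingHom ℝ)).eval t

lemma ev_cont (Q : ℤ[X]) : Continuous (ev Q) := Polynomial.continuous _

lemma ev_int (Q : ℤ[X]) (N : ℤ) : ev Q N = ((Q.eval N : ℤ) : ℝ) := by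
  unfold ev
  rw [show (N : ℝ) = (Int.castRingHom ℝ) N from rfl, Polynomial.eval_map_apply]
  rfl

lemma sub_pos' {N a : ℤ} (hN : 2 ≤ N) (ha : a = 1 ∨ a = -1) {t : ℝ} (ht : t ∈ Set.uIcc (0 : ℝ) a) :
    0 < (N : ℝ) - t := by
  have hNR : (2 : ℝ) ≤ N := by exact_mod_cast hN
  rcases ha with rfl | rfl
  · rw [Set.uIcc_of_le (by simp)] at ht
    have := ht.2
    push_cast at this
    linarith
  · rw [Set.uIcc_of_ge (by simp)] at ht
    have := ht.2
    linarith

lemma cont_inv {N a : ℤ} (hN : 2 ≤ N) (ha : a = 1 ∨ a = -1) (f : ℝ → ℝ) (hf : Continuous f)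
    (k : ℕ) : IntervalIntegrable (fun t => f t / ((N : ℝ) - t) ^ k) volume 0 a := by
  apply ContinuousOn.intervalIntegrable
  apply ContinuousOn.div hf.continuousOn (by fun_prop)
  intro t ht
  exact (pow_pos (sub_pos' hN ha ht) k).ne'

lemma int_zero {N a : ℤ} (hN : 2 ≤ N) (ha : a = 1 ∨ a = -1) :
    ∫ t in (0 : ℝ)..a, t ^ 0 / ((N : ℝ) - t) = Real.log (N / (N - a)) := by
  have hNR : (2 : ℝ) ≤ N := by exact_mod_cast hN
  have h1 : ∀ t ∈ Set.uIcc (0 : ℝ) a,
      HasDerivAt (fun t : ℝ => - Real.log ((N : ℝ) - t)) (t ^ 0 / ((N : ℝ) - t)) t := by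
    intro t ht
    have h2 := sub_pos' hN ha ht
    have h3 : HasDerivAt (fun t : ℝ => (N : ℝ) - t) (-1) t := by
      simpa using (hasDerivAt_id t).const_sub (N : ℝ)
    have h4 := (h3.log h2.ne').neg
    exact h4.congr_deriv (by rw [pow_zero]; ring)
  rw [intervalIntegral.integral_eq_sub_of_hasDerivAt h1]
  · have ha' : (0 : ℝ) < N - a := by
      rcases ha with rfl | rfl <;> push_cast <;> linarith
    rw [Real.log_div (by linarith) ha'.ne']
    simp only [sub_zero]
    ring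
  · have := cont_inv hN ha (fun t => t ^ 0) (by fun_prop) 1
    simpa using this

lemma int_succ {N a : ℤ} (hN : 2 ≤ N) (ha : a = 1 ∨ a = -1) (k : ℕ) :
    ∫ t in (0 : ℝ)..a, t ^ (k + 1) / ((N : ℝ) - t) =
      N * (∫ t in (0 : ℝ)..a, t ^ k / ((N : ℝ) - t)) - (a : ℝ) ^ (k + 1) / (k + 1) := by
  have h1 := cont_inv hN ha (fun t => t ^ k) (by fun_prop) 1
  simp only [pow_one] at h1
  have h2 : IntervalIntegrable (fun t : ℝ => t ^ k) volume 0 a :=
    (by fun_prop : Continuous fun t : ℝ => t ^ k).intervalIntegrable _ _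
  have h3 : ∫ t in (0 : ℝ)..a, t ^ (k + 1) / ((N : ℝ) - t) =
      ∫ t in (0 : ℝ)..a, (N * (t ^ k / ((N : ℝ) - t)) - t ^ k) := by
    apply intervalIntegral.integral_congr
    intro t ht
    have h4 := sub_pos' hN ha ht
    simp only
    field_simp
    ring
  rw [h3, intervalIntegral.integral_sub (h1.const_mul _) h2,
    intervalIntegral.integral_const_mul, integral_pow]
  simp

lemma int_mono {N a : ℤ} (hN : 2 ≤ N) (ha : a = 1 ∨ a = -1) (d : ℕ) :
    ∀ k ≤ d, ∃ p : ℤ, (Nat.lcmUpto d : ℝ) * ∫ t in (0 : ℝ)..a, t ^ k / ((N : ℝ) - t) =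
      Nat.lcmUpto d * ((N : ℝ) ^ k * Real.log (N / (N - a))) - p := by
  intro k
  induction k with
  | zero =>
    intro _
    refine ⟨0, ?_⟩
    rw [int_zero hN ha]
    simp
  | succ k ih =>
    intro hk
    obtain ⟨p, hp⟩ := ih (by omega)
    obtain ⟨e, he⟩ : (k + 1) ∣ Nat.lcmUpto d := by
      unfold Nat.lcmUpto
      exact Finset.dvd_lcm (f := id) (mem_Icc.mpr ⟨by omega, hk⟩)
    refine ⟨N * p + a ^ (k + 1) * e, ?_⟩
    rw [int_succ hN ha, mul_sub, ← mul_assoc, mul_comm (Nat.lcmUpto d : ℝ) (N : ℝ), mul_assoc, hp]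
    have h1 : (Nat.lcmUpto d : ℝ) * ((a : ℝ) ^ (k + 1) / (k + 1)) = a ^ (k + 1) * e := by
      rw [he]
      push_cast
      have : (k : ℝ) + 1 ≠ 0 := by positivity
      field_simp
    rw [h1]
    push_cast
    ring

lemma int_poly {N a : ℤ} (hN : 2 ≤ N) (ha : a = 1 ∨ a = -1) (d : ℕ) (Q : ℤ[X])
    (hQ : Q.natDegree ≤ d) :
    ∃ p : ℤ, (Nat.lcmUpto d : ℝ) * ∫ t in (0 : ℝ)..a, ev Q t / ((N : ℝ) - t) =
      Nat.lcmUpto d * (ev Q N * Real.log (N / (N - a))) - p := by
  have hex : ∀ t : ℝ, ev Q t = ∑ k ∈ range (d + 1), (Q.coeff k : ℝ) * t ^ k := by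
    intro t
    unfold ev
    rw [Polynomial.eval_eq_sum_range' (n := d + 1)]
    · simp
    · exact lt_of_le_of_lt (Polynomial.natDegree_map_le) (by omega)
  choose! p hp using int_mono hN ha d
  refine ⟨∑ k ∈ range (d + 1), Q.coeff k * p k, ?_⟩
  have h1 : ∫ t in (0 : ℝ)..a, ev Q t / ((N : ℝ) - t) =
      ∑ k ∈ range (d + 1), (Q.coeff k : ℝ) * ∫ t in (0 : ℝ)..a, t ^ k / ((N : ℝ) - t) := by
    simp_rw [hex, sum_div, mul_div_assoc]
    rw [intervalIntegral.integral_finsetSum]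
    · simp_rw [intervalIntegral.integral_const_mul]
    · intro k _
      have h1 := cont_inv hN ha (fun t => t ^ k) (by fun_prop) 1
      simp only [pow_one] at h1
      exact h1.const_mul _
  rw [h1, hex, sum_mul, mul_sum, mul_sum]
  push_cast
  rw [← sum_sub_distrib]
  apply sum_congr rfl
  intro k hk
  have h2 := hp k (by rw [mem_range] at hk; omega)
  calc (Nat.lcmUpto d : ℝ) * ((Q.coeff k : ℝ) * ∫ t in (0 : ℝ)..a, t ^ k / ((N : ℝ) - t))
      = (Q.coeff k : ℝ) * ((Nat.lcmUpto d : ℝ) * ∫ t in (0 : ℝ)..a, t ^ k / ((N : ℝ) - t)) := by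
        ring
    _ = _ := by rw [h2]; ring

lemma ev_deriv (P : ℤ[X]) (t : ℝ) : HasDerivAt (ev P) (ev (derivative P) t) t := by
  unfold ev
  rw [← Polynomial.derivative_map]
  exact Polynomial.hasDerivAt _ t

lemma inv_deriv {N : ℝ} {t : ℝ} (ht : N - t ≠ 0) (k : ℕ) :
    HasDerivAt (fun t : ℝ => (k.factorial : ℝ) / (N - t) ^ (k + 1))
      (((k + 1).factorial : ℝ) / (N - t) ^ (k + 2)) t := by
  have h3 : HasDerivAt (fun t : ℝ => N - t) (-1) t := by
    simpa using (hasDerivAt_id t).const_sub N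
  have h4 := (h3.pow (k + 1)).inv (pow_ne_zero _ ht)
  have h5 := h4.const_mul (k.factorial : ℝ)
  refine HasDerivAt.congr_of_eventuallyEq (h5.congr_deriv ?_) ?_
  · rw [Nat.factorial_succ]
    push_cast
    field_simp
    simp
    ring
  · exact Filter.Eventually.of_forall fun x => by simp [div_eq_mul_inv]

lemma ev_root {P : ℤ[X]} {a : ℤ} {k : ℕ} (hk : 1 ≤ k) (h : (X - C a) ^ k ∣ P) : ev P a = 0 := by
  obtain ⟨R, rfl⟩ := h
  unfold ev
  rw [Polynomial.map_mul, Polynomial.map_pow, Polynomial.map_sub, Polynomial.map_X,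
    Polynomial.map_C, Polynomial.eval_mul, Polynomial.eval_pow]
  simp
  left
  omega

lemma parts {N a : ℤ} (hN : 2 ≤ N) (ha : a = 1 ∨ a = -1) (n : ℕ) (F : ℤ[X])
    (h0 : (X - C 0) ^ n ∣ F) (h1 : (X - C a) ^ n ∣ F) :
    ∀ k ≤ n, ∫ t in (0 : ℝ)..a, ev (derivative^[n] F) t / ((N : ℝ) - t) =
      (-1) ^ k * ∫ t in (0 : ℝ)..a, ev (derivative^[n - k] F) t *
        ((k.factorial : ℝ) / ((N : ℝ) - t) ^ (k + 1)) := by
  intro k
  induction k with
  | zero =>
    intro _
    simp [div_eq_mul_inv]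
  | succ k ih =>
    intro hk
    rw [ih (by omega)]
    obtain ⟨m, hm⟩ : ∃ m, n - (k + 1) = m := ⟨_, rfl⟩
    have hm2 : n - k = m + 1 := by omega
    rw [hm, hm2, Function.iterate_succ_apply']
    set P := derivative^[m] F with hP
    have e0 : ev P 0 = 0 := by
      have := Polynomial.pow_sub_dvd_iterate_derivative_of_pow_dvd m h0
      rw [← hP] at this
      have h := ev_root (by omega) this
      simpa using h
    have e1 : ev P a = 0 := by
      have := Polynomial.pow_sub_dvd_iterate_derivative_of_pow_dvd m h1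
      rw [← hP] at this
      exact ev_root (by omega) this
    have hu : ∀ t ∈ Set.uIcc (0 : ℝ) a, HasDerivAt (ev P) (ev (derivative P) t) t :=
      fun t _ => ev_deriv P t
    have hv : ∀ t ∈ Set.uIcc (0 : ℝ) a, HasDerivAt
        (fun t : ℝ => (k.factorial : ℝ) / ((N : ℝ) - t) ^ (k + 1))
        (((k + 1).factorial : ℝ) / ((N : ℝ) - t) ^ (k + 2)) t :=
      fun t ht => inv_deriv (sub_pos' hN ha ht).ne' k
    have hc := intervalIntegral.integral_deriv_mul_eq_sub hu hv
      ((ev_cont _).intervalIntegrable _ _)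
      (by
        have := cont_inv hN ha (fun _ => ((k + 1).factorial : ℝ)) (by fun_prop) (k + 2)
        exact this)
    rw [e0, e1, zero_mul, zero_mul, sub_zero, intervalIntegral.integral_add] at hc
    · have h2 : ∫ t in (0 : ℝ)..a, ev (derivative P) t *
          ((k.factorial : ℝ) / ((N : ℝ) - t) ^ (k + 1)) = - ∫ t in (0 : ℝ)..a, ev P t *
          (((k + 1).factorial : ℝ) / ((N : ℝ) - t) ^ (k + 1 + 1)) := by
        linarith
      rw [h2, pow_succ]
      ring
    · have := cont_inv hN ha (fun t => ev (derivative P) t * (k.factorial : ℝ))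
        ((ev_cont _).mul continuous_const) (k + 1)
      refine this.congr ?_
      intro t _
      simp only
      ring
    · have := cont_inv hN ha (fun t => ev P t * ((k + 1).factorial : ℝ))
        ((ev_cont _).mul continuous_const) (k + 2)
      refine this.congr ?_
      intro t _
      simp only
      ring

/-- the Rodrigues formula -/
lemma remainder {N a : ℤ} (hN : 2 ≤ N) (ha : a = 1 ∨ a = -1) (n : ℕ) (F : ℤ[X])
    (h0 : (X - C 0) ^ n ∣ F) (h1 : (X - C a) ^ n ∣ F) :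
    ∫ t in (0 : ℝ)..a, ev (hasseDeriv n F) t / ((N : ℝ) - t) =
      (-1) ^ n * ∫ t in (0 : ℝ)..a, ev F t / ((N : ℝ) - t) ^ (n + 1) := by
  have h := parts hN ha n F h0 h1 n le_rfl
  rw [Nat.sub_self, Function.iterate_zero, id] at h
  have hf : ((n.factorial : ℝ)) ≠ 0 := by positivity
  have e1 : ∀ t : ℝ, ev (derivative^[n] F) t = n.factorial * ev (hasseDeriv n F) t := by
    intro t
    have h3 := congrFun (Polynomial.factorial_smul_hasseDeriv (R := ℤ) n) F
    rw [← h3]
    unfold ev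
    simp [nsmul_eq_mul]
  simp_rw [e1, mul_div_assoc, intervalIntegral.integral_const_mul] at h
  have e2 : ∀ t : ℝ, ev F t * ((n.factorial : ℝ) / ((N : ℝ) - t) ^ (n + 1)) =
      n.factorial * (ev F t / ((N : ℝ) - t) ^ (n + 1)) := by
    intro t; ring
  simp_rw [e2, intervalIntegral.integral_const_mul] at h
  apply mul_left_cancel₀ hf
  rw [h]
  ring

end Pool.Agent.TH461.EM.Dioph
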