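import Mathlib
import Pool.Agent.TH461.EM.Dioph

/-!
Lower bound for `x log ((N+1)/N) - y log (N/(N-1))`, `N = 2^20`.
-/

set_option autoImplicit false

open Finset Polynomial
open MeasureTheory (volume)

namespace Pool.Agent.TH461.EM.Dioph

/-- `(X (X^2 - 1))^n` -/
noncomputable def FF (n : ℕ) : ℤ[X] := (X * (X ^ 2 - 1)) ^ n

lemma FF_ev (n : ℕ) (t : ℝ) : ev (FF n) t = (t * (t ^ 2 - 1)) ^ n := by
  unfold ev FF
  simp

lemma FF_dvd0 (n : ℕ) : (X - C 0) ^ n ∣ FF n := by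
  unfold FF
  rw [C_0, sub_zero, mul_pow]
  exact dvd_mul_right _ _

lemma FF_dvd {a : ℤ} (ha : a = 1 ∨ a = -1) (n : ℕ) : (X - C a) ^ n ∣ FF n := by
  unfold FF
  apply pow_dvd_pow_of_dvd
  rcases ha with rfl | rfl
  · exact ⟨X * (X + 1), by rw [C_1]; ring⟩
  · exact ⟨X * (X - 1), by rw [C_neg, C_1]; ring⟩

lemma FF_deg (n : ℕ) : (hasseDeriv n (FF n)).natDegree ≤ 2 * n := by
  refine (natDegree_hasseDeriv_le _ _).trans ?_
  have h : (FF n).natDegree ≤ 3 * n := by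
    unfold FF
    refine natDegree_pow_le.trans ?_
    rw [mul_comm]
    apply Nat.mul_le_mul_right
    compute_degree
  omega

lemma nn_mul {P Q : ℤ[X]} (hP : ∀ i, 0 ≤ P.coeff i) (hQ : ∀ i, 0 ≤ Q.coeff i) :
    ∀ i, 0 ≤ (P * Q).coeff i := by
  intro i
  rw [coeff_mul]
  exact sum_nonneg fun x _ => mul_nonneg (hP _) (hQ _)

lemma nn_pow {P : ℤ[X]} (hP : ∀ i, 0 ≤ P.coeff i) (n : ℕ) : ∀ i, 0 ≤ (P ^ n).coeff i := by
  induction n with
  | zero =>
    intro i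
    rw [pow_zero, coeff_one]
    split_ifs <;> simp
  | succ n ih =>
    rw [pow_succ]
    exact nn_mul ih hP

lemma coeff_le_eval {P : ℤ[X]} (hP : ∀ i, 0 ≤ P.coeff i) (n : ℕ) : P.coeff n ≤ P.eval 1 := by
  by_cases hn : n ∈ range (P.natDegree + 1)
  · rw [eval_eq_sum_range]
    simp only [one_pow, mul_one]
    exact single_le_sum (f := fun i => P.coeff i) (fun i _ => hP i) hn
  · have h1 : P.coeff n = 0 := by
      apply coeff_eq_zero_of_natDegree_lt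
      rw [mem_range] at hn
      omega
    rw [h1, eval_eq_sum_range]
    simp only [one_pow, mul_one]
    exact sum_nonneg fun i _ => hP i

lemma nn_lin {k : ℤ} (hk : 0 ≤ k) : ∀ i, 0 ≤ (X + C k : ℤ[X]).coeff i := by
  intro i
  rw [coeff_add, coeff_X, coeff_C]
  split_ifs <;> omega

lemma FF_bound {N : ℤ} (hN : 2 ≤ N) (n : ℕ) :
    0 ≤ (hasseDeriv n (FF n)).eval N ∧
      (hasseDeriv n (FF n)).eval N ≤ ((N + 1) * (N * (N + 2))) ^ n := by
  rw [← taylor_coeff]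
  have h1 : taylor N (FF n) = ((X + C N) * ((X + C (N - 1)) * (X + C (N + 1)))) ^ n := by
    unfold FF
    rw [taylor_pow, taylor_mul, taylor_X, map_sub, taylor_pow, taylor_X, taylor_one]
    congr 2
    rw [C_sub, C_add, C_1]
    ring
  rw [h1]
  have h2 : ∀ i, 0 ≤ (((X + C N) * ((X + C (N - 1)) * (X + C (N + 1)))) ^ n : ℤ[X]).coeff i :=
    nn_pow (nn_mul (nn_lin (by omega)) (nn_mul (nn_lin (by omega)) (nn_lin (by omega)))) n
  refine ⟨h2 n, (coeff_le_eval h2 n).trans (le_of_eq ?_)⟩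
  simp
  ring

lemma pow_odd_neg {n : ℕ} (hn : Odd n) : (-1 : ℝ) ^ n = -1 := hn.neg_one_pow

/-- the remainder at `1` -/
lemma Rp {N : ℤ} (hN : 2 ≤ N) {n : ℕ} (hn : Odd n) :
    0 ≤ ∫ t in (0 : ℝ)..(1 : ℤ), ev (hasseDeriv n (FF n)) t / ((N : ℝ) - t) ∧
      ∫ t in (0 : ℝ)..(1 : ℤ), ev (hasseDeriv n (FF n)) t / ((N : ℝ) - t) ≤
        1 / ((N : ℝ) - 1) ^ (n + 1) := by
  have hNR : (2 : ℝ) ≤ N := by exact_mod_cast hN
  rw [remainder hN (Or.inl rfl) n (FF n) (FF_dvd0 n) (FF_dvd (Or.inl rfl) n), pow_odd_neg hn,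
    ← intervalIntegral.integral_const_mul]
  have h1 : ∀ t : ℝ, -1 * (ev (FF n) t / ((N : ℝ) - t) ^ (n + 1)) =
      (t * (1 - t ^ 2)) ^ n / ((N : ℝ) - t) ^ (n + 1) := by
    intro t
    rw [FF_ev]
    have : (t * (1 - t ^ 2)) ^ n = - (t * (t ^ 2 - 1)) ^ n := by
      rw [← hn.neg_pow]; ring
    rw [this]; ring
  simp_rw [h1]
  have hci : IntervalIntegrable (fun t : ℝ => (t * (1 - t ^ 2)) ^ n / ((N : ℝ) - t) ^ (n + 1))
      volume 0 (1 : ℤ) :=
    cont_inv hN (Or.inl rfl) (fun t => (t * (1 - t ^ 2)) ^ n) (by fun_prop) (n + 1)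
  push_cast at hci ⊢
  constructor
  · apply intervalIntegral.integral_nonneg (by norm_num)
    intro t ht
    have h3 : 0 ≤ 1 - t ^ 2 := by nlinarith [ht.1, ht.2]
    have h4 : 0 < (N : ℝ) - t := by linarith [ht.2]
    have := ht.1
    positivity
  · have h2 : ∫ t in (0 : ℝ)..1, (1 : ℝ) / ((N : ℝ) - 1) ^ (n + 1) =
        1 / ((N : ℝ) - 1) ^ (n + 1) := by simp
    rw [← h2]
    apply intervalIntegral.integral_mono_on (by norm_num) hci (by simp)
    intro t ht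
    have h3 : 0 ≤ 1 - t ^ 2 := by nlinarith [ht.1, ht.2]
    have h3' : 1 - t ^ 2 ≤ 1 := by nlinarith [ht.1, ht.2]
    have h4 : 0 < (N : ℝ) - 1 := by linarith
    have h5 : (N : ℝ) - 1 ≤ (N : ℝ) - t := by linarith [ht.2]
    have h6 : t * (1 - t ^ 2) ≤ 1 := by nlinarith [ht.1, ht.2]
    have h7 : 0 ≤ t * (1 - t ^ 2) := mul_nonneg ht.1 h3
    apply div_le_div₀ (by norm_num) (pow_le_one₀ h7 h6) (by positivity)
    exact pow_le_pow_left₀ h4.le h5 _

/-- the remainder at `-1` -/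
lemma Rm {N : ℤ} (hN : 2 ≤ N) {n : ℕ} (hn : Odd n) :
    (1 / 4) * ((1 / 8) ^ n / ((N : ℝ) + 1) ^ (n + 1)) ≤
      ∫ t in (0 : ℝ)..(-1 : ℤ), ev (hasseDeriv n (FF n)) t / ((N : ℝ) - t) ∧
    ∫ t in (0 : ℝ)..(-1 : ℤ), ev (hasseDeriv n (FF n)) t / ((N : ℝ) - t) ≤
        1 / ((N : ℝ) - 1) ^ (n + 1) := by
  have hNR : (2 : ℝ) ≤ N := by exact_mod_cast hN
  rw [remainder hN (Or.inr rfl) n (FF n) (FF_dvd0 n) (FF_dvd (Or.inr rfl) n), pow_odd_neg hn,
    neg_one_mul, ← intervalIntegral.integral_symm]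
  simp_rw [FF_ev]
  have hci : IntervalIntegrable (fun t : ℝ => (t * (t ^ 2 - 1)) ^ n / ((N : ℝ) - t) ^ (n + 1))
      volume 0 (-1 : ℤ) :=
    cont_inv hN (Or.inr rfl) (fun t => (t * (t ^ 2 - 1)) ^ n) (by fun_prop) (n + 1)
  have hci' := hci.symm
  push_cast at hci' ⊢
  have hnn : ∀ t : ℝ, t ≤ 0 → -1 ≤ t → 0 ≤ t * (t ^ 2 - 1) := by
    intro t h1 h2
    nlinarith [mul_nonneg (neg_nonneg.mpr h1) (by nlinarith : 0 ≤ 1 - t ^ 2)]
  constructor
  · have hsub : ∫ t in (-(1 / 2) : ℝ)..(-(1 / 4)),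
        (t * (t ^ 2 - 1)) ^ n / ((N : ℝ) - t) ^ (n + 1) ≤
        ∫ t in (-1 : ℝ)..0, (t * (t ^ 2 - 1)) ^ n / ((N : ℝ) - t) ^ (n + 1) := by
      apply intervalIntegral.integral_mono_interval (by norm_num) (by norm_num) (by norm_num)
      · refine (MeasureTheory.ae_restrict_iff' measurableSet_Ioc).mpr
          (Filter.Eventually.of_forall ?_)
        intro t ht
        have h1 := hnn t ht.2 ht.1.le
        have h4 : 0 < (N : ℝ) - t := by linarith [ht.2]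
        simp only [Pi.zero_apply]
        positivity
      · exact hci'
    refine le_trans ?_ hsub
    have h2 : ∫ t in (-(1 / 2) : ℝ)..(-(1 / 4)), (1 / 8 : ℝ) ^ n / ((N : ℝ) + 1) ^ (n + 1) =
        (1 / 4) * ((1 / 8) ^ n / ((N : ℝ) + 1) ^ (n + 1)) := by
      rw [intervalIntegral.integral_const, smul_eq_mul]
      norm_num
    rw [← h2]
    apply intervalIntegral.integral_mono_on (by norm_num) (by simp)
    · refine hci'.mono_set ?_
      rw [Set.uIcc_of_le (by norm_num), Set.uIcc_of_le (by norm_num)]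
      exact Set.Icc_subset_Icc (by norm_num) (by norm_num)
    · intro t ht
      have h3 : (1 / 8 : ℝ) ≤ t * (t ^ 2 - 1) := by
        have h5 : (3 / 4 : ℝ) ≤ 1 - t ^ 2 := by nlinarith [ht.1, ht.2]
        nlinarith [ht.1, ht.2]
      have h4 : 0 < (N : ℝ) - t := by linarith [ht.2]
      have h5 : (N : ℝ) - t ≤ (N : ℝ) + 1 := by linarith [ht.1]
      apply div_le_div₀ (pow_nonneg (by linarith) _) (pow_le_pow_left₀ (by norm_num) h3 _)
        (by positivity)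
      exact pow_le_pow_left₀ h4.le h5 _
  · have h2 : ∫ t in (-1 : ℝ)..0, (1 : ℝ) / ((N : ℝ) - 1) ^ (n + 1) =
        1 / ((N : ℝ) - 1) ^ (n + 1) := by simp
    rw [← h2]
    apply intervalIntegral.integral_mono_on (by norm_num) hci' (by simp)
    intro t ht
    have h7 := hnn t ht.2 ht.1
    have h6 : t * (t ^ 2 - 1) ≤ 1 := by nlinarith [ht.1, ht.2]
    have h4 : 0 < (N : ℝ) - 1 := by linarith
    have h5 : (N : ℝ) - 1 ≤ (N : ℝ) - t := by linarith [ht.2]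
    apply div_le_div₀ (by norm_num) (pow_le_one₀ h7 h6) (by positivity)
    exact pow_le_pow_left₀ h4.le h5 _

end Pool.Agent.TH461.EM.Dioph
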