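import Mathlib
import Pool.Agent.TH461.EM.Dioph2

/-!
Lower bound for `x log ((N+1)/N) - y log (N/(N-1))`, `N = 2^20`.
-/

set_option autoImplicit false

open Finset Polynomial
open MeasureTheory (volume)

namespace Pool.Agent.TH461.EM.Dioph

lemma lcm_bound (n : ℕ) : (Nat.lcmUpto (2 * n) : ℝ) ≤ 2 ^ (16 * n) := by
  have h1 := Chebyshev.psi_eq_log_lcmUpto (2 * n)
  have h2 := Chebyshev.psi_le_const_mul_self (x := ((2 * n : ℕ) : ℝ)) (by positivity)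
  rw [h1] at h2
  have h3 : (0 : ℝ) < Nat.lcmUpto (2 * n) := by exact_mod_cast Nat.lcmUpto_pos _
  rw [← Real.log_le_log_iff h3 (by positivity), Real.log_pow]
  refine h2.trans ?_
  have h4 : Real.log 4 = 2 * Real.log 2 := by
    rw [show (4 : ℝ) = 2 ^ 2 by norm_num, Real.log_pow]; norm_num
  have h5 := Real.log_two_gt_d9
  rw [h4]
  push_cast
  have hn : (0 : ℝ) ≤ n := Nat.cast_nonneg _
  nlinarith

lemma int_add_small {m : ℤ} {δ : ℝ} (h0 : 0 ≤ δ) (h1 : δ ≤ 1 / 2) : δ ≤ |(m : ℝ) + δ| := by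
  rcases lt_trichotomy m 0 with h | h | h
  · have h2 : (m : ℝ) ≤ -1 := by exact_mod_cast (by omega : m ≤ -1)
    rw [abs_of_nonpos (by linarith)]
    linarith
  · rw [h]; simp [abs_of_nonneg h0]
  · have h2 : (1 : ℝ) ≤ m := by exact_mod_cast h
    rw [abs_of_nonneg (by linarith)]
    linarith

/-- for odd `n` with `x ≤ 2^n` -/
lemma step (x y n : ℕ) (hx : 1 ≤ x) (hyx : y ≤ x) (hn : Odd n) (hxn : x ≤ 2 ^ n) :
    1 / (2 : ℝ) ^ (87 * n + 23) ≤ |(x : ℝ) * Real.log ((2 ^ 20 + 1) / 2 ^ 20) -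
      y * Real.log (2 ^ 20 / (2 ^ 20 - 1))| := by
  set N : ℤ := 2 ^ 20 with hN
  have hN2 : 2 ≤ N := by norm_num [hN]
  have hNR : (N : ℝ) = 2 ^ 20 := by norm_num [hN]
  obtain ⟨hp1, hp2⟩ := Rp hN2 hn
  obtain ⟨hm1, hm2⟩ := Rm hN2 hn
  obtain ⟨P, hP⟩ := int_poly hN2 (Or.inl rfl : (1 : ℤ) = 1 ∨ (1 : ℤ) = -1) (2 * n)
    (hasseDeriv n (FF n)) (FF_deg n)
  obtain ⟨M, hM⟩ := int_poly hN2 (Or.inr rfl : (-1 : ℤ) = 1 ∨ (-1 : ℤ) = -1) (2 * n)
    (hasseDeriv n (FF n)) (FF_deg n)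
  obtain ⟨hq1, hq2⟩ := FF_bound hN2 n
  set Rp := ∫ t in (0 : ℝ)..(1 : ℤ), ev (hasseDeriv n (FF n)) t / ((N : ℝ) - t) with hRp
  set Rm := ∫ t in (0 : ℝ)..(-1 : ℤ), ev (hasseDeriv n (FF n)) t / ((N : ℝ) - t) with hRm
  rw [ev_int] at hP hM
  set Q : ℤ := (hasseDeriv n (FF n)).eval N with hQ
  set D : ℕ := Nat.lcmUpto (2 * n) with hD
  have hD0 : (0 : ℝ) < D := by exact_mod_cast Nat.lcmUpto_pos _
  have hD1 : (D : ℝ) ≤ 2 ^ (16 * n) := lcm_bound n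
  have hxR : (1 : ℝ) ≤ x := by exact_mod_cast hx
  have hyR : (0 : ℝ) ≤ y := Nat.cast_nonneg _
  have hyxR : (y : ℝ) ≤ x := by exact_mod_cast hyx
  -- the small quantity
  set δ : ℝ := D * (x * Rm + y * Rp) with hδ
  have hRm0 : 0 < Rm := lt_of_lt_of_le (by rw [hNR]; positivity) hm1
  have hδ0 : (D : ℝ) * Rm ≤ δ := by
    rw [hδ]
    apply mul_le_mul_of_nonneg_left _ hD0.le
    nlinarith [mul_nonneg hyR hp1]
  have hδ00 : 0 < δ := lt_of_lt_of_le (by positivity) hδ0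
  have hN1 : (1 : ℝ) / ((N : ℝ) - 1) ^ (n + 1) ≤ 1 / 2 ^ (19 * (n + 1)) := by
    apply one_div_le_one_div_of_le (by positivity)
    rw [pow_mul]
    apply pow_le_pow_left₀ (by positivity)
    rw [hNR]; norm_num
  have hδ1 : δ ≤ 1 / 2 := by
    have h1 : x * Rm + y * Rp ≤ 2 * x * (1 / 2 ^ (19 * (n + 1))) := by
      have h2 : x * Rm ≤ x * (1 / 2 ^ (19 * (n + 1))) :=
        mul_le_mul_of_nonneg_left (hm2.trans hN1) (by positivity)
      have h3 : y * Rp ≤ x * (1 / 2 ^ (19 * (n + 1))) :=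
        mul_le_mul hyxR (hp2.trans hN1) hp1 (by positivity)
      linarith
    have hxn' : (x : ℝ) ≤ 2 ^ n := by exact_mod_cast hxn
    have h4 : δ ≤ 2 ^ (16 * n) * (2 * 2 ^ n * (1 / 2 ^ (19 * (n + 1)))) := by
      rw [hδ]
      apply mul_le_mul hD1 (h1.trans _) (by positivity) (by positivity)
      apply mul_le_mul_of_nonneg_right _ (by positivity)
      linarith
    refine h4.trans ?_
    have e : (2 : ℝ) ^ (16 * n) * (2 * 2 ^ n * (1 / 2 ^ (19 * (n + 1)))) =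
        2 ^ (17 * n + 1) / 2 ^ (19 * n + 19) := by
      rw [mul_one_div, ← mul_div_assoc]
      congr 1
      rw [pow_succ, show 17 * n = 16 * n + n by ring, pow_add]; ring
    rw [e, div_le_div_iff₀ (by positivity) (by norm_num), one_mul, ← pow_succ]
    exact pow_le_pow_right₀ (by norm_num) (by omega)
  -- the linear form
  set L : ℝ := x * Real.log (N / (N - ((-1 : ℤ) : ℝ))) + y * Real.log (N / (N - ((1 : ℤ) : ℝ)))
    with hL
  have hform : (D : ℝ) * (Q * L) = ((x * M + y * P : ℤ) : ℝ) + δ := by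
    rw [hδ, hL]
    push_cast at hM hP ⊢
    linear_combination (x : ℝ) * (-hM) + y * (-hP)
  have h1 : δ ≤ |(D : ℝ) * (Q * L)| := by
    rw [hform]
    exact int_add_small hδ00.le hδ1
  have hQ0 : (0 : ℝ) ≤ Q := by exact_mod_cast hq1
  rw [abs_mul, abs_of_pos hD0, abs_mul, abs_of_nonneg hQ0] at h1
  have h2 : Rm ≤ Q * |L| := by
    have h3 : (D : ℝ) * Rm ≤ D * (Q * |L|) := hδ0.trans h1
    exact le_of_mul_le_mul_left h3 hD0
  have hQ1 : (Q : ℝ) ≤ 2 ^ (63 * n) := by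
    have h3 : (Q : ℝ) ≤ ((((N + 1) * (N * (N + 2))) ^ n : ℤ) : ℝ) := by exact_mod_cast hq2
    refine h3.trans ?_
    push_cast
    rw [pow_mul]
    apply pow_le_pow_left₀
    · rw [hNR]; positivity
    · rw [hNR]; norm_num
  have hLe : |L| = |(x : ℝ) * Real.log ((2 ^ 20 + 1) / 2 ^ 20) -
      y * Real.log (2 ^ 20 / (2 ^ 20 - 1))| := by
    rw [← abs_neg, hL, hNR]
    congr 1
    have e1 : Real.log ((2 : ℝ) ^ 20 / (2 ^ 20 - ((-1 : ℤ) : ℝ))) =
        - Real.log ((2 ^ 20 + 1) / 2 ^ 20) := by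
      rw [← Real.log_inv]
      congr 1
      rw [inv_div]
      push_cast
      congr 1
      ring
    rw [e1]
    push_cast
    ring
  rw [← hLe]
  have h5 : 1 / (2 : ℝ) ^ (24 * n + 23) ≤ Rm := by
    refine le_trans ?_ hm1
    have h6 : ((N : ℝ) + 1) ^ (n + 1) ≤ 2 ^ (21 * (n + 1)) := by
      rw [pow_mul]
      apply pow_le_pow_left₀
      · rw [hNR]; positivity
      · rw [hNR]; norm_num
    have h7 : (1 / 8 : ℝ) ^ n / 2 ^ (21 * (n + 1)) ≤ (1 / 8) ^ n / ((N : ℝ) + 1) ^ (n + 1) := by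
      apply div_le_div_of_nonneg_left (by positivity) _ h6
      rw [hNR]; positivity
    refine le_trans (le_of_eq ?_) (mul_le_mul_of_nonneg_left h7 (by norm_num))
    rw [one_div_pow, show (8 : ℝ) = 2 ^ 3 by norm_num, ← pow_mul]
    rw [show 24 * n + 23 = 2 + (3 * n + 21 * (n + 1)) by ring, pow_add, pow_add]
    field_simp
    norm_num
  have h8 : 1 / (2 : ℝ) ^ (24 * n + 23) ≤ 2 ^ (63 * n) * |L| :=
    h5.trans (h2.trans (mul_le_mul_of_nonneg_right hQ1 (abs_nonneg _)))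
  rw [div_le_iff₀ (by positivity)] at h8
  rw [div_le_iff₀ (by positivity)]
  refine h8.trans (le_of_eq ?_)
  rw [show 87 * n + 23 = 63 * n + (24 * n + 23) by ring, pow_add]
  ring

/-- **Diophantine type.** -/
theorem dioph (x y : ℕ) (hx : 1 ≤ x) (hyx : y ≤ x) :
    1 / ((2 : ℝ) ^ 110 * (x : ℝ) ^ 174) ≤ |(x : ℝ) * Real.log ((2 ^ 20 + 1) / 2 ^ 20) -
      y * Real.log (2 ^ 20 / (2 ^ 20 - 1))| := by
  set k := Nat.log 2 x with hk
  have h1 : x < 2 ^ (k + 1) := Nat.lt_pow_succ_log_self (by norm_num) x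
  have h2 : 2 ^ k ≤ x := Nat.pow_log_le_self 2 (by omega)
  have h3 := step x y (2 * k + 1) hx hyx ⟨k, rfl⟩ (h1.le.trans
    (Nat.pow_le_pow_right (by norm_num) (by omega)))
  refine le_trans ?_ h3
  apply one_div_le_one_div_of_le (by positivity)
  have h4 : ((2 : ℝ) ^ k) ^ 174 ≤ (x : ℝ) ^ 174 := by
    apply pow_le_pow_left₀ (by positivity)
    exact_mod_cast h2
  calc (2 : ℝ) ^ (87 * (2 * k + 1) + 23) = 2 ^ 110 * (2 ^ k) ^ 174 := by
        rw [← pow_mul, ← pow_add]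
        congr 1
        ring
    _ ≤ 2 ^ 110 * (x : ℝ) ^ 174 := mul_le_mul_of_nonneg_left h4 (by positivity)

end Pool.Agent.TH461.EM.Dioph
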