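import Mathlib
import Pool.Agent.TH461.EM.Dioph3

/-!
The numbers `r x y = (N+1)^x (N-1)^y / N^(x+y)`, `N = 2^20`, in short intervals.
-/

set_option autoImplicit false

namespace Pool.Agent.TH461.EM

noncomputable def L1 : ℝ := Real.log ((2 ^ 20 + 1) / 2 ^ 20)
noncomputable def L2 : ℝ := Real.log (2 ^ 20 / (2 ^ 20 - 1))

lemma L1_pos : 1 / 2 ^ 21 ≤ L1 := by
  unfold L1
  have h := Real.one_sub_inv_le_log_of_pos (x := ((2 : ℝ) ^ 20 + 1) / 2 ^ 20) (by positivity)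
  refine le_trans ?_ h
  norm_num

lemma L2_lt : L2 < 1 / 2 := by
  unfold L2
  have h := Real.log_le_sub_one_of_pos (x := (2 : ℝ) ^ 20 / (2 ^ 20 - 1)) (by norm_num)
  refine lt_of_le_of_lt h ?_
  norm_num

lemma L1_lt_L2 : L1 < L2 := by
  unfold L1 L2
  apply Real.log_lt_log (by norm_num)
  norm_num

lemma dioph' {x y : ℕ} (hx : 1 ≤ x) (hyx : y ≤ x) :
    1 / ((2 : ℝ) ^ 110 * (x : ℝ) ^ 174) ≤ |(x : ℝ) * L1 - y * L2| :=
  Dioph.dioph x y hx hyx

/-- a walk with small steps hits an interval -/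
lemma walk {z s A η Z : ℝ} (hs : s ≠ 0) (hsη : |s| ≤ η) (hlo : 0 < s → z ≤ A)
    (hhi : s < 0 → A ≤ z) (hZ : |z - A| ≤ Z) :
    ∃ j : ℕ, (j : ℝ) ≤ Z / |s| + 1 ∧ A ≤ z + j * s ∧ z + j * s ≤ A + η := by
  have hs0 : 0 < |s| := abs_pos.mpr hs
  rcases lt_or_gt_of_ne hs with h | h
  · -- negative step
    have hz := hhi h
    rw [abs_of_neg h] at hs0 hsη ⊢
    rw [abs_of_nonneg (by linarith)] at hZ
    refine ⟨⌊(z - A) / (-s)⌋₊, ?_, ?_, ?_⟩
    · have h1 := Nat.floor_le (div_nonneg (by linarith : 0 ≤ z - A) hs0.le)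
      have h2 : (z - A) / (-s) ≤ Z / (-s) := div_le_div_of_nonneg_right hZ hs0.le
      linarith
    · have h1 := Nat.floor_le (div_nonneg (by linarith : 0 ≤ z - A) hs0.le)
      rw [le_div_iff₀ hs0] at h1
      linarith
    · have h1 := Nat.lt_floor_add_one ((z - A) / (-s))
      rw [div_lt_iff₀ hs0] at h1
      linarith
  · have hz := hlo h
    rw [abs_of_pos h] at hs0 hsη ⊢
    rw [abs_of_nonpos (by linarith)] at hZ
    refine ⟨⌈(A - z) / s⌉₊, ?_, ?_, ?_⟩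
    · have h1 := (Nat.ceil_lt_add_one (div_nonneg (by linarith : 0 ≤ A - z) hs0.le)).le
      have h2 : (A - z) / s ≤ Z / s := div_le_div_of_nonneg_right (by linarith) hs0.le
      linarith
    · have h1 := Nat.le_ceil ((A - z) / s)
      rw [div_le_iff₀ hs0] at h1
      linarith
    · have h1 := (Nat.ceil_lt_add_one (div_nonneg (by linarith : 0 ≤ A - z) hs0.le)).le
      have h2 : ((⌈(A - z) / s⌉₊ : ℝ) - 1) * s ≤ A - z := by
        rw [← le_div_iff₀ hs0]; linarith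
      linarith

/-- integers `x` in any interval of polynomial length with `x L1 - y L2` in a given interval -/
lemma cand (A : ℝ) (n : ℕ) (hn : 1 ≤ n) (hA : 0 ≤ A) (hA2 : A + 1 / n < L1) (t ℓ : ℕ)
    (hℓ : 2 ^ 111 * n ^ 175 + 1 ≤ ℓ) :
    ∃ x y : ℕ, t ≤ x ∧ x < t + ℓ ∧ y ≤ x ∧ A ≤ x * L1 - y * L2 ∧ x * L1 - y * L2 ≤ A + 1 / n := by
  have hL1 : 0 < L1 := lt_of_lt_of_le (by norm_num) L1_pos
  have hL2 : 0 < L2 := hL1.trans L1_lt_L2
  have hnR : (1 : ℝ) ≤ n := by exact_mod_cast hn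
  have hn0 : (0 : ℝ) < 1 / n := by positivity
  obtain ⟨k, m, hm0, hmn, hkm⟩ := Real.exists_int_int_abs_mul_sub_le (L1 / L2) (n := n) (by omega)
  obtain ⟨m, rfl⟩ := Int.eq_ofNat_of_zero_le hm0.le
  set s : ℝ := m * L1 - k * L2 with hs
  have hm1 : 1 ≤ m := by omega
  have hmR : (1 : ℝ) ≤ m := by exact_mod_cast hm1
  have hmn' : m ≤ n := by omega
  have hsη : |s| ≤ 1 / n := by
    have e : s = ((m : ℝ) * (L1 / L2) - k) * L2 := by
      rw [hs]; field_simp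
    rw [e, abs_mul, abs_of_pos hL2]
    push_cast at hkm
    calc |(m : ℝ) * (L1 / L2) - k| * L2 ≤ 1 / (n + 1) * 1 := by
          apply mul_le_mul hkm (by linarith [L2_lt]) hL2.le (by positivity)
      _ ≤ 1 / n := by
          rw [mul_one]
          exact one_div_le_one_div_of_le (by linarith) (by linarith)
  have hsL : |s| < L1 := by linarith
  -- `k` is between `0` and `m`
  have hk0 : 0 ≤ k := by
    by_contra hneg
    have h1 : (k : ℝ) ≤ -1 := by exact_mod_cast (by omega : k ≤ -1)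
    have h2 := (abs_lt.mp hsL).2
    nlinarith
  obtain ⟨k, rfl⟩ := Int.eq_ofNat_of_zero_le hk0
  have hkm' : k ≤ m := by
    by_contra hneg
    have h1 : (m : ℝ) + 1 ≤ k := by exact_mod_cast (by omega : m + 1 ≤ k)
    have h2 := (abs_lt.mp hsL).1
    have h3 : (m : ℝ) * L1 ≤ m * L2 := by nlinarith [L1_lt_L2]
    have h4 : ((m : ℝ) + 1) * L2 ≤ k * L2 := mul_le_mul_of_nonneg_right h1 hL2.le
    push_cast at hs
    linarith [L1_lt_L2]
  push_cast at hs
  have hsd := dioph' hm1 hkm'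
  rw [← hs] at hsd
  have hs0 : s ≠ 0 := by
    intro h0
    rw [h0, abs_zero] at hsd
    have : (0 : ℝ) < 1 / (2 ^ 110 * (m : ℝ) ^ 174) := by positivity
    linarith
  have hsabs : 0 < |s| := abs_pos.mpr hs0
  -- the starting point
  obtain ⟨y0, hlo, hhi, hZ⟩ : ∃ y0 : ℤ, (0 < s → (t : ℝ) * L1 - y0 * L2 ≤ A) ∧
      (s < 0 → A ≤ (t : ℝ) * L1 - y0 * L2) ∧ |(t : ℝ) * L1 - y0 * L2 - A| ≤ 1 := by
    rcases lt_or_gt_of_ne hs0 with h | h
    · refine ⟨⌊((t : ℝ) * L1 - A) / L2⌋, fun h' => absurd h' (by linarith), fun _ => ?_, ?_⟩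
      · have h1 := Int.floor_le (((t : ℝ) * L1 - A) / L2)
        rw [le_div_iff₀ hL2] at h1
        linarith
      · have h1 := Int.floor_le (((t : ℝ) * L1 - A) / L2)
        have h2 := Int.lt_floor_add_one (((t : ℝ) * L1 - A) / L2)
        rw [le_div_iff₀ hL2] at h1
        rw [div_lt_iff₀ hL2] at h2
        rw [abs_le]
        constructor <;> linarith [L2_lt]
    · refine ⟨⌈((t : ℝ) * L1 - A) / L2⌉, fun _ => ?_, fun h' => absurd h' (by linarith), ?_⟩
      · have h1 := Int.le_ceil (((t : ℝ) * L1 - A) / L2)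
        rw [div_le_iff₀ hL2] at h1
        linarith
      · have h1 := Int.le_ceil (((t : ℝ) * L1 - A) / L2)
        have h2 := Int.ceil_lt_add_one (((t : ℝ) * L1 - A) / L2)
        rw [div_le_iff₀ hL2] at h1
        rw [← sub_lt_iff_lt_add, lt_div_iff₀ hL2] at h2
        rw [abs_le]
        constructor <;> linarith [L2_lt]
  obtain ⟨j, hj1, hj2, hj3⟩ := walk hs0 hsη hlo hhi hZ
  have e : (t : ℝ) * L1 - y0 * L2 + j * s = ((t + j * m : ℕ) : ℝ) * L1 -
      ((y0 + j * k : ℤ) : ℝ) * L2 := by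
    rw [hs]; push_cast; ring
  rw [e] at hj2 hj3
  have hy0 : 0 ≤ y0 + j * k := by
    by_contra hneg
    have h1 : ((y0 + j * k : ℤ) : ℝ) ≤ -1 := by exact_mod_cast (by omega : y0 + j * k ≤ -1)
    have h2 : (0 : ℝ) ≤ ((t + j * m : ℕ) : ℝ) * L1 := by positivity
    nlinarith [L1_lt_L2]
  obtain ⟨y, hy⟩ := Int.eq_ofNat_of_zero_le hy0
  rw [hy] at hj2 hj3
  push_cast at hj2 hj3
  refine ⟨t + j * m, y, by omega, ?_, ?_, by push_cast; exact hj2, by push_cast; exact hj3⟩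
  · -- the length
    have h1 : (j : ℝ) ≤ 2 ^ 110 * (m : ℝ) ^ 174 + 1 := by
      refine hj1.trans ?_
      have h2 : 1 / |s| ≤ 2 ^ 110 * (m : ℝ) ^ 174 := by
        rw [div_le_iff₀ hsabs]
        rw [div_le_iff₀ (by positivity)] at hsd
        linarith
      linarith
    have h2 : j ≤ 2 ^ 110 * m ^ 174 + 1 := by exact_mod_cast h1
    have h3 : m ^ 174 ≤ n ^ 174 := Nat.pow_le_pow_left hmn' _
    have h4 : j * m ≤ (2 ^ 110 * n ^ 174 + 1) * n :=
      Nat.mul_le_mul (h2.trans (by omega)) hmn'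
    have h5 : n ≤ n ^ 175 := Nat.le_self_pow (by norm_num) n
    have h6 : (2 ^ 110 * n ^ 174 + 1) * n = 2 ^ 110 * n ^ 175 + n := by ring
    have h7 : 1 ≤ n ^ 175 := Nat.one_le_pow _ _ (by omega)
    omega
  · by_contra hneg
    have h1 : ((t + j * m : ℕ) : ℝ) + 1 ≤ y := by exact_mod_cast (by omega : t + j * m + 1 ≤ y)
    push_cast at h1
    have h2 : ((t : ℝ) + j * m) * L1 ≤ (t + j * m) * L2 :=
      mul_le_mul_of_nonneg_left L1_lt_L2.le (by positivity)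
    have h3 : ((t : ℝ) + j * m + 1) * L2 ≤ y * L2 := mul_le_mul_of_nonneg_right h1 hL2.le
    linarith

end Pool.Agent.TH461.EM
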