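import Mathlib
import Pool.Agent.TH461.EM.Cand

/-!
Two very good rational approximations to two numbers `r x1 y1`, `r x2 y2`.
-/

set_option autoImplicit false

namespace Pool.Agent.TH461.EM

noncomputable def r (x y : ℕ) : ℝ := (2 ^ 20 + 1) ^ x * (2 ^ 20 - 1) ^ y / (2 ^ 20) ^ (x + y)

lemma r_pos (x y : ℕ) : 0 < r x y := by
  unfold r
  have : (0 : ℝ) < 2 ^ 20 - 1 := by norm_num
  positivity

lemma r_add (x y x' y' : ℕ) : r (x + x') (y + y') = r x y * r x' y' := by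
  unfold r
  rw [pow_add, pow_add, show x + x' + (y + y') = (x + y) + (x' + y') by ring, pow_add]
  field_simp

lemma log_r (x y : ℕ) : Real.log (r x y) = x * L1 - y * L2 := by
  unfold r L1 L2
  have h1 : (0 : ℝ) < 2 ^ 20 - 1 := by norm_num
  rw [Real.log_div (by positivity) (by positivity), Real.log_mul (by positivity) (by positivity),
    Real.log_pow, Real.log_pow, Real.log_pow, Real.log_div (by positivity) (by positivity),
    Real.log_div (by positivity) h1.ne']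
  push_cast
  ring

/-- distance from a rational number -/
lemma r_dist (x y : ℕ) (a : ℤ) (b : ℕ) (hb : 0 < b) (h : (a : ℝ) / b ≠ r x y) :
    1 / ((b : ℝ) * (2 ^ 20) ^ (x + y)) ≤ |r x y - a / b| := by
  have hbR : (0 : ℝ) < b := by exact_mod_cast hb
  have e : r x y - a / b =
      (((2 ^ 20 + 1) ^ x * (2 ^ 20 - 1) ^ y * b - a * (2 ^ 20) ^ (x + y) : ℤ) : ℝ) /
        ((b : ℝ) * (2 ^ 20) ^ (x + y)) := by
    unfold r
    simp only [Int.cast_sub, Int.cast_mul, Int.cast_pow, Int.cast_add, Int.cast_ofNat, Int.cast_one,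
      Int.cast_natCast]
    field_simp
  rw [e, abs_div, abs_of_pos (by positivity : (0 : ℝ) < (b : ℝ) * (2 ^ 20) ^ (x + y))]
  apply div_le_div_of_nonneg_right _ (by positivity)
  have h1 : ((2 ^ 20 + 1) ^ x * (2 ^ 20 - 1) ^ y * b - a * (2 ^ 20) ^ (x + y) : ℤ) ≠ 0 := by
    intro h0
    apply h
    rw [h0] at e
    simp at e
    linarith
  have h2 := Int.one_le_abs h1
  exact_mod_cast h2

/-- a candidate is above `u0`, in a short interval -/
structure Cand (u0 : ℝ) (x y : ℕ) : Prop where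
  le : y ≤ x
  lo : 0 ≤ x * L1 - y * L2
  hi : x * L1 - y * L2 < 1 / 2 ^ 22

lemma exp_le {t : ℝ} (h0 : 0 ≤ t) (h1 : t ≤ 1 / 2 ^ 22) : Real.exp t ≤ 1 + 2 * t := by
  have := Real.exp_bound' h0 (by linarith [show (1 : ℝ) / 2 ^ 22 ≤ 1 by norm_num]) (n := 1)
    (by norm_num)
  simp at this
  linarith

lemma Cand.r_bounds {u0 : ℝ} {x y : ℕ} (h : Cand u0 x y) : 1 ≤ r x y ∧ r x y ≤ 1 + 1 / 2 ^ 21 := by
  have e : r x y = Real.exp (x * L1 - y * L2) := by
    rw [← log_r, Real.exp_log (r_pos x y)]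
  rw [e]
  constructor
  · exact Real.one_le_exp h.lo
  · have := exp_le h.lo h.hi.le
    have h2 := h.hi
    have : (2 : ℝ) * (1 / 2 ^ 22) = 1 / 2 ^ 21 := by norm_num
    linarith

/-- differences of two candidates -/
lemma Cand.diff {u0 : ℝ} {x y x' y' : ℕ} (h : Cand u0 x y) (h' : Cand u0 x' y') (hx : x < x') :
    ∃ dx dy : ℕ, x' = x + dx ∧ y' = y + dy ∧ 1 ≤ dx ∧ dy ≤ dx := by
  have hL1 := L1_pos
  have hL12 := L1_lt_L2
  have hL1' : 0 < L1 := lt_of_lt_of_le (by norm_num) hL1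
  have hxR : (x : ℝ) + 1 ≤ x' := by exact_mod_cast hx
  have e22 : (1 : ℝ) / 2 ^ 22 < 1 / 2 ^ 21 := by norm_num
  have hyy : y ≤ y' := by
    by_contra hneg
    have h1 : (y' : ℝ) + 1 ≤ y := by exact_mod_cast (by omega : y' + 1 ≤ y)
    have h2 := h.lo
    have h3 := h'.hi
    have h4 : ((x : ℝ) + 1) * L1 ≤ x' * L1 := mul_le_mul_of_nonneg_right hxR hL1'.le
    have h5 : ((y' : ℝ) + 1) * L2 ≤ y * L2 := mul_le_mul_of_nonneg_right h1 (by linarith)
    linarith
  obtain ⟨dx, rfl⟩ := Nat.exists_eq_add_of_le hx.le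
  obtain ⟨dy, rfl⟩ := Nat.exists_eq_add_of_le hyy
  refine ⟨dx, dy, rfl, rfl, by omega, ?_⟩
  by_contra hneg
  have h1 : (dx : ℝ) + 1 ≤ dy := by exact_mod_cast (by omega : dx + 1 ≤ dy)
  have h2 := h.hi
  have h3 := h'.lo
  push_cast at h3
  have h5 : ((dx : ℝ) + 1) * L2 ≤ dy * L2 := mul_le_mul_of_nonneg_right h1 (by linarith)
  have h6 : (dx : ℝ) * L1 ≤ dx * L2 := mul_le_mul_of_nonneg_left hL12.le (Nat.cast_nonneg _)
  linarith

/-- a very good approximation -/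
structure Bad (w q : ℕ) (u : ℝ) (a : ℤ) (b : ℕ) : Prop where
  qb : q ≤ b
  ne : (a : ℝ) / b ≠ u
  lt : |u - a / b| < 1 / (b : ℝ) ^ w

lemma Bad.pos {w q : ℕ} {u : ℝ} {a : ℤ} {b : ℕ} (h : Bad w q u a b) : 0 < |u - a / b| :=
  abs_pos.mpr (sub_ne_zero.mpr h.ne.symm)

lemma Bad.pow_lt {w q : ℕ} {u : ℝ} {a : ℤ} {b : ℕ} (h : Bad w q u a b) (hq : 1 ≤ q) {T : ℝ}
    (hT : 0 < T) (hδ : 1 / T < |u - a / b|) : (b : ℝ) ^ w < T := by
  have hb : (0 : ℝ) < b := by exact_mod_cast (by have := h.qb; omega : 0 < b)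
  have h1 := hδ.trans h.lt
  rw [div_lt_div_iff₀ hT (by positivity)] at h1
  linarith

/-- the numerator -/
lemma Bad.num {w q : ℕ} {u : ℝ} {a : ℤ} {b : ℕ} (h : Bad w q u a b) (hq : 2 ≤ q) (hw : 1 ≤ w)
    (hu1 : 1 ≤ u) (hu3 : u ≤ 3) : 1 ≤ a ∧ a ≤ 4 * b := by
  have hb2 : 2 ≤ b := hq.trans h.qb
  have hbR : (2 : ℝ) ≤ b := by exact_mod_cast hb2
  have hbp : (2 : ℝ) ≤ (b : ℝ) ^ w := by
    calc (2 : ℝ) ≤ b := hbR
      _ ≤ (b : ℝ) ^ w := le_self_pow₀ (by linarith) (by omega)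
  have h1 : |u - a / b| < 1 / 2 :=
    h.lt.trans_le (one_div_le_one_div_of_le (by norm_num) hbp)
  rw [abs_lt] at h1
  have hb0 : (0 : ℝ) < b := by linarith
  constructor
  · by_contra hneg
    have h2 : (a : ℝ) ≤ 0 := by exact_mod_cast (by omega : a ≤ 0)
    have h3 : (a : ℝ) / b ≤ 0 := div_nonpos_of_nonpos_of_nonneg h2 hb0.le
    linarith
  · have h2 : (a : ℝ) / b ≤ 4 := by linarith
    rw [div_le_iff₀ hb0] at h2
    exact_mod_cast h2

/-- the same rational number cannot be close to two candidates -/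
lemma same_num {u0 : ℝ} (hu1 : 1 ≤ u0) {w b : ℕ} (hw : 62641 ≤ w)
    (hb : 2 ^ 500 ≤ b) {x y x' y' : ℕ} (h : Cand u0 x y) (h' : Cand u0 x' y') (hx : x < x')
    {n : ℕ} (hn : n ≤ 180 * Nat.log 2 b) (hxx : x' < x + 4 ^ n) (a : ℤ)
    (hb1 : |u0 * r x y - a / b| < 1 / (b : ℝ) ^ w)
    (hb2 : |u0 * r x' y' - a / b| < 1 / (b : ℝ) ^ w) : False := by
  obtain ⟨dx, dy, rfl, rfl, hdx, hdy⟩ := h.diff h' hx
  have hb0 : (0 : ℝ) < b := by
    have : 0 < b := lt_of_lt_of_le (by positivity) hb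
    exact_mod_cast this
  have hb1' : (1 : ℝ) ≤ b := by
    have : 1 ≤ b := le_trans (Nat.one_le_pow _ _ (by norm_num)) hb
    exact_mod_cast this
  have hr1 := h.r_bounds
  have hr2 := h'.r_bounds
  have hd : |u0 * r (x + dx) (y + dy) - u0 * r x y| < 2 / (b : ℝ) ^ w := by
    have e : u0 * r (x + dx) (y + dy) - u0 * r x y =
        (u0 * r (x + dx) (y + dy) - a / b) - (u0 * r x y - a / b) := by ring
    rw [e]
    refine (abs_sub _ _).trans_lt ?_
    have : (2 : ℝ) / (b : ℝ) ^ w = 1 / (b : ℝ) ^ w + 1 / (b : ℝ) ^ w := by ring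
    rw [this]
    linarith
  have hd2 : |r (x + dx) (y + dy) - r x y| < 2 / (b : ℝ) ^ w := by
    rw [← mul_sub, abs_mul, abs_of_pos (by linarith)] at hd
    refine lt_of_le_of_lt ?_ hd
    exact le_mul_of_one_le_left (abs_nonneg _) hu1
  have hlog : |(dx : ℝ) * L1 - dy * L2| ≤ |r (x + dx) (y + dy) - r x y| := by
    have e : (dx : ℝ) * L1 - dy * L2 = Real.log (r dx dy) := (log_r dx dy).symm
    rw [e, r_add]
    have hp := r_pos dx dy
    have hlu := Real.log_le_sub_one_of_pos hp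
    have hll := Real.one_sub_inv_le_log_of_pos hp
    have e2 : |r x y * r dx dy - r x y| = r x y * |r dx dy - 1| := by
      rw [← abs_of_pos (r_pos x y), ← abs_mul, abs_of_pos (r_pos x y)]
      congr 1; ring
    rw [e2]
    have hR : 1 ≤ r x y * r dx dy := by rw [← r_add]; exact hr2.1
    rw [abs_le]
    rcases le_total 1 (r dx dy) with h1 | h1
    · rw [abs_of_nonneg (by linarith)]
      have h3 := Real.log_nonneg h1
      constructor
      · nlinarith
      · nlinarith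
    · rw [abs_of_nonpos (by linarith)]
      have h3 : Real.log (r dx dy) ≤ 0 := Real.log_nonpos hp.le h1
      have h4 : 1 - (r dx dy)⁻¹ = - ((1 - r dx dy) * (r dx dy)⁻¹) := by
        field_simp; ring
      have h5 : (r dx dy)⁻¹ ≤ r x y := by
        rw [inv_le_iff_one_le_mul₀ hp]; exact hR
      constructor
      · have h6 : (1 - r dx dy) * (r dx dy)⁻¹ ≤ (1 - r dx dy) * r x y :=
          mul_le_mul_of_nonneg_left h5 (by linarith)
        rw [h4] at hll
        linarith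
      · have h6 : 0 ≤ r x y * -(r dx dy - 1) := mul_nonneg (by linarith) (by linarith)
        linarith
  have hD := dioph' hdx hdy
  have hdxn : dx < 4 ^ n := by omega
  have h4n : 4 ^ n ≤ b ^ 360 := by
    calc 4 ^ n ≤ 4 ^ (180 * Nat.log 2 b) := Nat.pow_le_pow_right (by norm_num) hn
      _ = (2 ^ Nat.log 2 b) ^ 360 := by
          rw [show (4 : ℕ) = 2 ^ 2 by norm_num, ← pow_mul, ← pow_mul]
          congr 1
          ring
      _ ≤ b ^ 360 := Nat.pow_le_pow_left (Nat.pow_log_le_self 2 (by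
          have : 0 < b := lt_of_lt_of_le (by positivity) hb
          omega)) _
  have hdxb : (dx : ℝ) ^ 174 ≤ (b : ℝ) ^ 62640 := by
    have h1 : dx ^ 174 ≤ (b ^ 360) ^ 174 := Nat.pow_le_pow_left (by omega) _
    rw [← pow_mul] at h1
    exact_mod_cast h1
  have h1 : 1 / ((2 : ℝ) ^ 110 * (b : ℝ) ^ 62640) < 2 / (b : ℝ) ^ w := by
    refine lt_of_le_of_lt ?_ (hlog.trans_lt hd2)
    refine le_trans ?_ hD
    have hdx0 : (0 : ℝ) < dx := by exact_mod_cast hdx
    exact one_div_le_one_div_of_le (by positivity) (mul_le_mul_of_nonneg_left hdxb (by positivity))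
  rw [div_lt_div_iff₀ (by positivity) (by positivity), one_mul] at h1
  have h2 : (b : ℝ) ^ 62641 ≤ (b : ℝ) ^ w := pow_le_pow_right₀ hb1' hw
  rw [pow_succ] at h2
  have h3 : (b : ℝ) ^ 62640 * b < (b : ℝ) ^ 62640 * 2 ^ 111 := by
    have : (2 : ℝ) * (2 ^ 110 * (b : ℝ) ^ 62640) = (b : ℝ) ^ 62640 * 2 ^ 111 := by ring
    linarith
  have h4 : (b : ℝ) < 2 ^ 111 := lt_of_mul_lt_mul_left h3 (by positivity)
  have h5 : b < 2 ^ 111 := by exact_mod_cast h4
  have h6 : (2 : ℕ) ^ 111 ≤ 2 ^ 500 := Nat.pow_le_pow_right (by norm_num) (by norm_num)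
  omega

end Pool.Agent.TH461.EM
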