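import Mathlib

/-!
A nested interval argument: in `[0, 4^n1)` find an interval of length `4^n0` which avoids sparse sets
`X b` and locally concentrated sets `Z n`.
-/

set_option autoImplicit false

open Finset

namespace Pool.Agent.TH461.EM.Tree

open Classical in
/-- number of elements of `X` in `[t, t + L)` -/
noncomputable def cnt (X : Set ℕ) (t L : ℕ) : ℕ := ((Ico t (t + L)).filter (fun x => x ∈ X)).card

lemma cnt_add_le {X : Set ℕ} {t L i j : ℕ} (h : i < j) (hj : j ≤ 3) :
    cnt X (t + i * L) L + cnt X (t + j * L) L ≤ cnt X t (4 * L) := by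
  classical
  unfold cnt
  rw [← card_union_of_disjoint]
  · apply card_le_card
    intro x hx
    simp only [mem_union, mem_filter, mem_Ico] at hx ⊢
    have h1 : i * L + L ≤ 4 * L := by
      have : i + 1 ≤ 4 := by omega
      calc i * L + L = (i + 1) * L := by ring
        _ ≤ 4 * L := Nat.mul_le_mul_right _ this
    have h2 : j * L + L ≤ 4 * L := by
      have : j + 1 ≤ 4 := by omega
      calc j * L + L = (j + 1) * L := by ring
        _ ≤ 4 * L := Nat.mul_le_mul_right _ this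
    rcases hx with ⟨hx1, hx2⟩ | ⟨hx1, hx2⟩
    · exact ⟨⟨by omega, by omega⟩, hx2⟩
    · exact ⟨⟨by omega, by omega⟩, hx2⟩
  · rw [Finset.disjoint_left]
    intro x hx hx'
    simp only [mem_filter, mem_Ico] at hx hx'
    have h1 : i * L + L ≤ j * L := by
      calc i * L + L = (i + 1) * L := by ring
        _ ≤ j * L := Nat.mul_le_mul_right _ h
    omega

/-- the nested intervals -/
theorem tree (κ n0 n1 : ℕ) (hn : n0 ≤ n1) (B : Finset ℕ) (hB0 : ∀ b ∈ B, n0 ≤ κ * Nat.log 2 b)
    (hB1 : ∀ b ∈ B, κ * Nat.log 2 b ≤ n1) (X : ℕ → Set ℕ)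
    (hX : ∀ b ∈ B, ∀ n, n ≤ κ * Nat.log 2 b → ∀ t, cnt (X b) t (4 ^ n) ≤ 4 * b)
    (Z : ℕ → Set ℕ)
    (hZ : ∀ n, n0 ≤ n → n < n1 → ∀ x ∈ Z (n + 1), ∀ x' ∈ Z (n + 1), x < x' →
      x' < x + 4 ^ (n + 1) → x' < x + 4 ^ n)
    (hsum : ∑ b ∈ B, (4 * b : ℝ) / 2 ^ (κ * Nat.log 2 b) * 2 ^ n0 < 1) :
    ∃ t, t + 4 ^ n0 ≤ 4 ^ n1 ∧ ∀ x, t ≤ x → x < t + 4 ^ n0 → (∀ b ∈ B, x ∉ X b) ∧
      ∀ n, n0 ≤ n → n < n1 → x ∉ Z (n + 1) := by
  classical
  have key : ∀ k, k ≤ n1 - n0 → ∃ t, t + 4 ^ (n1 - k) ≤ 4 ^ n1 ∧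
      (∀ x, t ≤ x → x < t + 4 ^ (n1 - k) → ∀ m, n1 - k ≤ m → m < n1 → x ∉ Z (m + 1)) ∧
      ((∑ b ∈ B.filter (fun b => n1 - k ≤ κ * Nat.log 2 b), cnt (X b) t (4 ^ (n1 - k)) : ℕ) : ℝ) ≤
        2 ^ (n1 - k) * ∑ b ∈ B.filter (fun b => n1 - k ≤ κ * Nat.log 2 b),
          (4 * b : ℝ) / 2 ^ (κ * Nat.log 2 b) := by
    intro k
    induction k with
    | zero =>
      intro _
      refine ⟨0, by simp, ?_, ?_⟩
      · intro x _ _ m h1 h2
        omega
      · rw [Nat.sub_zero, mul_sum]
        push_cast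
        apply sum_le_sum
        intro b hb
        rw [mem_filter] at hb
        have h1 : κ * Nat.log 2 b = n1 := le_antisymm (hB1 b hb.1) hb.2
        rw [h1, mul_div_cancel₀ _ (by positivity)]
        have h2 := hX b hb.1 n1 h1.ge 0
        exact_mod_cast h2
    | succ k ih =>
      intro hk
      obtain ⟨t, ht1, ht2, ht3⟩ := ih (by omega)
      obtain ⟨n, hn'⟩ : ∃ n, n1 - (k + 1) = n := ⟨_, rfl⟩
      have hn2 : n1 - k = n + 1 := by omega
      have hn0 : n0 ≤ n := by omega
      have hn1 : n < n1 := by omega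
      rw [hn2] at ht1 ht2 ht3
      rw [hn']
      set L := 4 ^ n with hL
      have hL4 : 4 ^ (n + 1) = 4 * L := by rw [pow_succ, mul_comm]
      rw [hL4] at ht1 ht2 ht3
      -- forbidden subintervals
      set F : ℕ → Prop := fun i => ∃ x ∈ Z (n + 1), t + i * L ≤ x ∧ x < t + i * L + L with hF
      have hfar : ∀ i j, i + 2 ≤ j → j ≤ 3 → ¬ (F i ∧ F j) := by
        rintro i j hij hj ⟨⟨x, hx, hx1, hx2⟩, ⟨x', hx', hx1', hx2'⟩⟩
        have h1 : i * L + 2 * L ≤ j * L := by
          calc i * L + 2 * L = (i + 2) * L := by ring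
            _ ≤ j * L := Nat.mul_le_mul_right _ hij
        have h2 : j * L + L ≤ 4 * L := by
          calc j * L + L = (j + 1) * L := by ring
            _ ≤ 4 * L := Nat.mul_le_mul_right _ (by omega)
        have := hZ n hn0 hn1 x hx x' hx' (by omega) (by rw [hL4]; omega)
        rw [← hL] at this
        omega
      obtain ⟨i, j, hij, hj, hFi, hFj⟩ : ∃ i j, i < j ∧ j ≤ 3 ∧ ¬ F i ∧ ¬ F j := by
        have h02 := hfar 0 2 (by omega) (by omega)
        have h03 := hfar 0 3 (by omega) (by omega)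
        have h13 := hfar 1 3 (by omega) (by omega)
        by_cases h0 : F 0
        · have h2 : ¬ F 2 := fun h => h02 ⟨h0, h⟩
          have h3 : ¬ F 3 := fun h => h03 ⟨h0, h⟩
          exact ⟨2, 3, by omega, by omega, h2, h3⟩
        · by_cases h1 : F 1
          · have h3 : ¬ F 3 := fun h => h13 ⟨h1, h⟩
            exact ⟨0, 3, by omega, by omega, h0, h3⟩
          · exact ⟨0, 1, by omega, by omega, h0, h1⟩
      -- the sum over the active indices
      set A := B.filter (fun b => n + 1 ≤ κ * Nat.log 2 b) with hA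
      set A' := B.filter (fun b => n ≤ κ * Nat.log 2 b) with hA'
      have hsum2 : (∑ b ∈ A, cnt (X b) (t + i * L) L) + (∑ b ∈ A, cnt (X b) (t + j * L) L) ≤
          ∑ b ∈ A, cnt (X b) t (4 * L) := by
        rw [← sum_add_distrib]
        exact sum_le_sum fun b _ => cnt_add_le hij hj
      obtain ⟨i', hi', hFi', hsum3⟩ : ∃ i' ≤ 3, ¬ F i' ∧
          2 * (∑ b ∈ A, cnt (X b) (t + i' * L) L) ≤ ∑ b ∈ A, cnt (X b) t (4 * L) := by
        rcases le_total (∑ b ∈ A, cnt (X b) (t + i * L) L) (∑ b ∈ A, cnt (X b) (t + j * L) L) with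
          h | h
        · exact ⟨i, by omega, hFi, by omega⟩
        · exact ⟨j, by omega, hFj, by omega⟩
      have hiL : i' * L + L ≤ 4 * L := by
        calc i' * L + L = (i' + 1) * L := by ring
          _ ≤ 4 * L := Nat.mul_le_mul_right _ (by omega)
      refine ⟨t + i' * L, by omega, ?_, ?_⟩
      · intro x hx1 hx2 m hm1 hm2
        rcases Nat.eq_or_lt_of_le hm1 with h | h
        · subst h
          intro hxZ
          exact hFi' ⟨x, hxZ, hx1, hx2⟩
        · exact ht2 x (by omega) (by omega) m h hm2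
      · have hsplit : A' = A ∪ B.filter (fun b => κ * Nat.log 2 b = n) := by
          ext b
          simp only [hA, hA', mem_filter, mem_union]
          constructor
          · rintro ⟨h1, h2⟩
            rcases Nat.eq_or_lt_of_le h2 with h | h
            · exact Or.inr ⟨h1, h.symm⟩
            · exact Or.inl ⟨h1, h⟩
          · rintro (⟨h1, h2⟩ | ⟨h1, h2⟩)
            · exact ⟨h1, by omega⟩
            · exact ⟨h1, by omega⟩
        have hdisj : Disjoint A (B.filter (fun b => κ * Nat.log 2 b = n)) := by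
          rw [Finset.disjoint_left]
          intro b h1 h2
          simp only [hA, mem_filter] at h1 h2
          omega
        rw [hsplit, sum_union hdisj, sum_union hdisj]
        push_cast
        rw [mul_add]
        apply add_le_add
        · have h1 : (2 : ℝ) * ((∑ b ∈ A, cnt (X b) (t + i' * L) L : ℕ) : ℝ) ≤
              2 ^ (n + 1) * ∑ b ∈ A, (4 * b : ℝ) / 2 ^ (κ * Nat.log 2 b) := by
            refine le_trans ?_ ht3
            exact_mod_cast hsum3
          rw [pow_succ] at h1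
          push_cast at h1
          linarith
        · rw [mul_sum]
          apply sum_le_sum
          intro b hb
          rw [mem_filter] at hb
          rw [hb.2, mul_div_cancel₀ _ (by positivity)]
          have h2 := hX b hb.1 n hb.2.ge (t + i' * L)
          exact_mod_cast h2
  obtain ⟨t, ht1, ht2, ht3⟩ := key (n1 - n0) le_rfl
  have e : n1 - (n1 - n0) = n0 := by omega
  rw [e] at ht1 ht2 ht3
  refine ⟨t, ht1, ?_⟩
  have hfil : B.filter (fun b => n0 ≤ κ * Nat.log 2 b) = B := by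
    apply filter_true_of_mem
    intro b hb
    exact hB0 b hb
  rw [hfil] at ht3
  have hlt : ((∑ b ∈ B, cnt (X b) t (4 ^ n0) : ℕ) : ℝ) < 1 := by
    refine lt_of_le_of_lt ht3 ?_
    rw [mul_comm, sum_mul]
    exact hsum
  have hz : ∑ b ∈ B, cnt (X b) t (4 ^ n0) = 0 := by
    have : ∑ b ∈ B, cnt (X b) t (4 ^ n0) < 1 := by exact_mod_cast hlt
    omega
  intro x hx1 hx2
  refine ⟨fun b hb hxb => ?_, fun n h1 h2 => ht2 x hx1 hx2 n h1 h2⟩
  have h0 := (sum_eq_zero_iff.mp hz) b hb
  unfold cnt at h0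
  rw [card_eq_zero, filter_eq_empty_iff] at h0
  exact h0 (mem_Ico.mpr ⟨hx1, hx2⟩) hxb

end Pool.Agent.TH461.EM.Tree
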