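import Mathlib
import Pool.Agent.TH461.EM.Pair
import Pool.Agent.TH461.EM.Tree

/-!
Clusters of candidates with very good rational approximations.
-/

set_option autoImplicit false

namespace Pool.Agent.TH461.EM

lemma no_big {w P : ℕ} (hw : 178 ≤ w) (hP : 1 ≤ P) {b b' : ℝ} (hb : 0 < b) (hb' : 0 < b')
    (h : b ^ w < 2 ^ (1600 * P)) (h' : b' ^ w < 2 ^ (1600 * P)) :
    ¬ (2 : ℝ) ^ (18 * P) ≤ b * b' := by
  intro hle
  have h1 : ((2 : ℝ) ^ (18 * P)) ^ w ≤ (b * b') ^ w := pow_le_pow_left₀ (by positivity) hle _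
  rw [mul_pow, ← pow_mul] at h1
  have h2 : b ^ w * b' ^ w < 2 ^ (1600 * P) * 2 ^ (1600 * P) :=
    mul_lt_mul'' h h' (by positivity) (by positivity)
  rw [← pow_add] at h2
  have h3 : (2 : ℝ) ^ (18 * P * w) < 2 ^ (1600 * P + 1600 * P) := lt_of_le_of_lt h1 h2
  rw [pow_lt_pow_iff_right₀ (by norm_num)] at h3
  nlinarith

lemma cluster {u0 : ℝ} (hu1 : 1 ≤ u0) (hu2 : u0 ≤ 2) {w q : ℕ} (hw : 178 ≤ w) (hq : 2 ≤ q)
    {x y x' y' : ℕ} (h : Cand u0 x y) (h' : Cand u0 x' y') (hx : x < x') {n : ℕ}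
    (hxx : x' < x + 4 ^ (n + 1)) {a a' : ℤ} {b b' : ℕ} (hb : Bad w q (u0 * r x y) a b)
    (hb' : Bad w q (u0 * r x' y') a' b')
    (h1 : |u0 * r x y - a / b| ≤ 1 / 2 ^ (400 * 4 ^ n))
    (h2 : 1 / 2 ^ (400 * 4 ^ (n + 1)) < |u0 * r x y - a / b|)
    (h1' : |u0 * r x' y' - a' / b'| ≤ 1 / 2 ^ (400 * 4 ^ n))
    (h2' : 1 / 2 ^ (400 * 4 ^ (n + 1)) < |u0 * r x' y' - a' / b'|) : x' < x + 4 ^ n := by
  obtain ⟨dx, dy, rfl, rfl, hdx, hdy⟩ := h.diff h' hx
  have hr1 := h.r_bounds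
  have hr2 := h'.r_bounds
  obtain ⟨P, hP⟩ : ∃ P, 4 ^ n = P := ⟨_, rfl⟩
  have hP1 : 1 ≤ P := by rw [← hP]; exact Nat.one_le_pow _ _ (by norm_num)
  rw [pow_succ, hP, show 400 * (P * 4) = 1600 * P by ring] at h2 h2'
  rw [pow_succ, hP] at hxx
  rw [hP] at h1 h1' ⊢
  have hdP : dx < 4 * P := by omega
  by_contra hcon
  have hdx2 : P ≤ dx := by omega
  have hb0 : 0 < b := by have := hb.qb; omega
  have hb0' : 0 < b' := by have := hb'.qb; omega
  have hbR : (0 : ℝ) < b := by exact_mod_cast hb0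
  have hbR' : (0 : ℝ) < b' := by exact_mod_cast hb0'
  have hnb := no_big hw hP1 hbR hbR' (hb.pow_lt (by omega) (by positivity) h2)
    (hb'.pow_lt (by omega) (by positivity) h2')
  apply hnb
  have hu : 1 ≤ u0 * r x y := by nlinarith
  have hu' : u0 * r x y ≤ 3 := by nlinarith
  have hu'' : 1 ≤ u0 * r (x + dx) (y + dy) := by nlinarith
  have hu''' : u0 * r (x + dx) (y + dy) ≤ 3 := by nlinarith
  have ha := hb.num hq (by omega) hu hu'
  have ha' := hb'.num hq (by omega) hu'' hu'''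
  have hR : r dx dy ≤ 2 := by
    have e := r_add x y dx dy
    have hp := r_pos dx dy
    nlinarith
  by_cases heq : a * b' * ((2 ^ 20 + 1) ^ dx * (2 ^ 20 - 1) ^ dy) = a' * b * (2 ^ 20) ^ (dx + dy)
  · -- equal ratios
    have hcop : IsCoprime (((2 : ℤ) ^ 20) ^ (dx + dy)) ((2 ^ 20 + 1) ^ dx * (2 ^ 20 - 1) ^ dy) := by
      apply IsCoprime.pow_left
      apply IsCoprime.mul_right
      · exact IsCoprime.pow_right ⟨-1, 1, by ring⟩
      · exact IsCoprime.pow_right ⟨1, -1, by ring⟩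
    have hdvd : ((2 : ℤ) ^ 20) ^ (dx + dy) ∣ a * b' := by
      apply hcop.dvd_of_dvd_mul_right
      rw [heq]
      exact dvd_mul_left _ _
    have hle : ((2 : ℤ) ^ 20) ^ (dx + dy) ≤ a * b' := by
      apply Int.le_of_dvd _ hdvd
      have : (0 : ℤ) < b' := by exact_mod_cast hb0'
      exact mul_pos (by linarith [ha.1]) this
    have hle2 : ((2 : ℝ) ^ 20) ^ (dx + dy) ≤ 4 * (b * b') := by
      have h3 : (((2 : ℤ) ^ 20) ^ (dx + dy) : ℤ) ≤ 4 * (b * b') := by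
        refine hle.trans ?_
        have : (0 : ℤ) < b' := by exact_mod_cast hb0'
        nlinarith [ha.2]
      exact_mod_cast h3
    rw [← pow_mul] at hle2
    have h4 : (2 : ℝ) ^ (18 * P) * 4 ≤ 2 ^ (20 * (dx + dy)) := by
      calc (2 : ℝ) ^ (18 * P) * 4 = 2 ^ (18 * P + 2) := by rw [pow_add]; norm_num
        _ ≤ 2 ^ (20 * (dx + dy)) := pow_le_pow_right₀ (by norm_num) (by omega)
    linarith
  · -- different ratios
    have hlow : 1 / ((2 : ℝ) ^ 20) ^ (dx + dy) ≤ |(a : ℝ) * b' * r dx dy - a' * b| := by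
      have e : (a : ℝ) * b' * r dx dy - a' * b =
          ((a * b' * ((2 ^ 20 + 1) ^ dx * (2 ^ 20 - 1) ^ dy) - a' * b * (2 ^ 20) ^ (dx + dy) : ℤ) :
            ℝ) / ((2 : ℝ) ^ 20) ^ (dx + dy) := by
        unfold r
        simp only [Int.cast_sub, Int.cast_mul, Int.cast_pow, Int.cast_add, Int.cast_ofNat,
          Int.cast_one, Int.cast_natCast]
        field_simp
      rw [e, abs_div, abs_of_pos (by positivity : (0 : ℝ) < ((2 : ℝ) ^ 20) ^ (dx + dy))]
      apply div_le_div_of_nonneg_right _ (by positivity)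
      have h3 := Int.one_le_abs (sub_ne_zero.mpr heq)
      exact_mod_cast h3
    have hup : |(a : ℝ) * b' * r dx dy - a' * b| ≤ b * b' * (3 * (1 / 2 ^ (400 * P))) := by
      have e : (a : ℝ) * b' * r dx dy - a' * b = b * b' * ((u0 * r (x + dx) (y + dy) - a' / b') -
          (u0 * r x y - a / b) * r dx dy) := by
        rw [r_add]
        field_simp
        ring
      rw [e, abs_mul, abs_of_pos (by positivity)]
      apply mul_le_mul_of_nonneg_left _ (by positivity)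
      refine (abs_sub _ _).trans ?_
      rw [abs_mul, abs_of_pos (r_pos dx dy)]
      have h3 : |u0 * r x y - a / b| * r dx dy ≤ 1 / 2 ^ (400 * P) * 2 :=
        mul_le_mul h1 hR (r_pos dx dy).le (by positivity)
      linarith
    have h3 := hlow.trans hup
    rw [← pow_mul, div_le_iff₀ (by positivity)] at h3
    have h4 : (2 : ℝ) ^ (400 * P) ≤ 3 * (b * b') * 2 ^ (20 * (dx + dy)) := by
      have h5 : (b : ℝ) * b' * (3 * (1 / 2 ^ (400 * P))) * 2 ^ (20 * (dx + dy)) =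
          (3 * (b * b') * 2 ^ (20 * (dx + dy))) / 2 ^ (400 * P) := by ring
      rw [h5, le_div_iff₀ (by positivity)] at h3
      linarith
    have h5 : (2 : ℝ) ^ (20 * (dx + dy)) ≤ 2 ^ (160 * P) :=
      pow_le_pow_right₀ (by norm_num) (by omega)
    have h6 : (2 : ℝ) ^ (18 * P) * (4 * 2 ^ (160 * P)) ≤ 2 ^ (400 * P) := by
      calc (2 : ℝ) ^ (18 * P) * (4 * 2 ^ (160 * P)) = 2 ^ (18 * P + 2 + 160 * P) := by
            rw [pow_add, pow_add]; norm_num; ring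
        _ ≤ 2 ^ (400 * P) := pow_le_pow_right₀ (by norm_num) (by omega)
    have h7 : (2 : ℝ) ^ (18 * P) * (4 * 2 ^ (160 * P)) ≤ (b * b') * (4 * 2 ^ (160 * P)) := by
      refine h6.trans (h4.trans ?_)
      have : 0 < (b : ℝ) * b' := by positivity
      nlinarith [mul_le_mul_of_nonneg_left h5 this.le,
        mul_pos this (by positivity : (0 : ℝ) < 2 ^ (20 * (dx + dy)))]
    exact le_of_mul_le_mul_right h7 (by positivity)

/-- the set of candidates close to a rational number with denominator `b` -/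
def XB (u0 : ℝ) (w b : ℕ) : Set ℕ :=
  {x | ∃ y : ℕ, Cand u0 x y ∧ ∃ a : ℤ, 1 ≤ a ∧ a ≤ 4 * b ∧ |u0 * r x y - a / b| < 1 / (b : ℝ) ^ w}

lemma XB_cnt {u0 : ℝ} (hu1 : 1 ≤ u0) {w b : ℕ} (hw : 62641 ≤ w) (hb : 2 ^ 500 ≤ b) {n : ℕ}
    (hn : n ≤ 180 * Nat.log 2 b) (t : ℕ) : Tree.cnt (XB u0 w b) t (4 ^ n) ≤ 4 * b := by
  classical
  unfold Tree.cnt
  have hcard : (Finset.Icc (1 : ℤ) (4 * b)).card = 4 * b := by
    rw [Int.card_Icc]; omega
  rw [← hcard]
  have hex : ∀ x ∈ (Finset.Ico t (t + 4 ^ n)).filter (fun x => x ∈ XB u0 w b), ∃ a : ℤ, ∃ y : ℕ,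
      Cand u0 x y ∧ 1 ≤ a ∧ a ≤ 4 * b ∧ |u0 * r x y - a / b| < 1 / (b : ℝ) ^ w := by
    intro x hx
    rw [Finset.mem_filter] at hx
    obtain ⟨y, h1, a, h2, h3, h4⟩ := hx.2
    exact ⟨a, y, h1, h2, h3, h4⟩
  choose! f y hf1 hf2 hf3 hf4 using hex
  apply Finset.card_le_card_of_injOn f
  · intro x hx
    simp only [Finset.coe_Icc, Set.mem_Icc]
    exact ⟨hf2 x hx, hf3 x hx⟩
  · intro x hx x' hx' hff
    have hm : x ∈ (Finset.Ico t (t + 4 ^ n)).filter (fun x => x ∈ XB u0 w b) := hx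
    have hm' : x' ∈ (Finset.Ico t (t + 4 ^ n)).filter (fun x => x ∈ XB u0 w b) := hx'
    have hi := Finset.mem_Ico.mp (Finset.mem_filter.mp hm).1
    have hi' := Finset.mem_Ico.mp (Finset.mem_filter.mp hm').1
    rcases lt_trichotomy x x' with hlt | heq | hlt
    · exfalso
      have h4 := hf4 x' hm'
      rw [← hff] at h4
      exact same_num hu1 hw hb (hf1 x hm) (hf1 x' hm') hlt hn (by omega) (f x) (hf4 x hm) h4
    · exact heq
    · exfalso
      have h4 := hf4 x hm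
      rw [hff] at h4
      exact same_num hu1 hw hb (hf1 x' hm') (hf1 x hm) hlt hn (by omega) (f x') (hf4 x' hm') h4

end Pool.Agent.TH461.EM
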