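import Mathlib
import Pool.Agent.TH461.EM.Clus

/-!
The next convergent.
-/

set_option autoImplicit false

open Finset

namespace Pool.Agent.TH461.EM

lemma sum_small (e M : ℕ) (he : 1000 ≤ e) :
    ∑ b ∈ Icc (2 ^ e) M, (4 * b : ℝ) / 2 ^ (180 * Nat.log 2 b) * 2 ^ (176 * e) < 1 := by
  set q : ℕ := 2 ^ e with hq
  have hq1 : 2 ^ 200 ≤ q := Nat.pow_le_pow_right (by norm_num) (by omega)
  have hq2 : 2 ≤ q := by
    have : 2 ^ 1 ≤ q := Nat.pow_le_pow_right (by norm_num) (by omega)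
    omega
  have hqR : (2 : ℝ) ^ 200 ≤ q := by exact_mod_cast hq1
  have hqR2 : (2 : ℝ) ≤ q := by exact_mod_cast hq2
  have hterm : ∀ b ∈ Icc q M, (4 * b : ℝ) / 2 ^ (180 * Nat.log 2 b) * 2 ^ (176 * e) ≤
      2 ^ 182 / q * ((b : ℝ) ^ 2)⁻¹ := by
    intro b hb
    rw [mem_Icc] at hb
    have hbR : (q : ℝ) ≤ b := by exact_mod_cast hb.1
    have hb0 : (0 : ℝ) < b := by linarith
    have h1 : (b : ℝ) / 2 ≤ 2 ^ Nat.log 2 b := by
      have h2 := Nat.lt_pow_succ_log_self (b := 2) (by norm_num) b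
      rw [Nat.succ_eq_add_one, pow_succ] at h2
      have h3 : (b : ℝ) < 2 ^ Nat.log 2 b * 2 := by exact_mod_cast h2
      linarith
    have h2 : ((b : ℝ) / 2) ^ 180 ≤ 2 ^ (180 * Nat.log 2 b) := by
      rw [mul_comm, pow_mul]
      exact pow_le_pow_left₀ (by positivity) h1 _
    have h3 : (2 : ℝ) ^ (176 * e) ≤ (b : ℝ) ^ 176 := by
      rw [mul_comm, pow_mul]
      apply pow_le_pow_left₀ (by positivity)
      have : ((2 : ℝ) ^ e) = q := by rw [hq]; push_cast; rfl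
      rw [this]; exact hbR
    have h4 : (4 * b : ℝ) / 2 ^ (180 * Nat.log 2 b) ≤ 4 * b / ((b : ℝ) / 2) ^ 180 :=
      div_le_div_of_nonneg_left (by positivity) (by positivity) h2
    calc (4 * b : ℝ) / 2 ^ (180 * Nat.log 2 b) * 2 ^ (176 * e) ≤
        4 * b / ((b : ℝ) / 2) ^ 180 * (b : ℝ) ^ 176 :=
          mul_le_mul h4 h3 (by positivity) (by positivity)
      _ = 2 ^ 182 / b * ((b : ℝ) ^ 2)⁻¹ := by
          field_simp
          norm_num
      _ ≤ 2 ^ 182 / q * ((b : ℝ) ^ 2)⁻¹ := by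
          apply mul_le_mul_of_nonneg_right _ (by positivity)
          exact div_le_div_of_nonneg_left (by positivity) (by linarith) hbR
  refine (sum_le_sum hterm).trans_lt ?_
  rw [← mul_sum]
  have hS : ∑ b ∈ Icc q M, ((b : ℝ) ^ 2)⁻¹ ≤ 1 := by
    rcases le_or_gt q M with hle | hlt
    · have h1 : Icc q M = Ioc (q - 1) M := by
        ext b; rw [mem_Icc, mem_Ioc]; omega
      rw [h1]
      refine (sum_Ioc_inv_sq_le_sub (k := q - 1) (n := M) (by omega) (by omega)).trans ?_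
      have h2 : (0 : ℝ) ≤ ((M : ℝ))⁻¹ := by positivity
      have h3 : (((q - 1 : ℕ) : ℝ))⁻¹ ≤ 1 := by
        apply inv_le_one_of_one_le₀
        exact_mod_cast (by omega : 1 ≤ q - 1)
      linarith
    · rw [Icc_eq_empty (by omega)]; simp
  calc (2 : ℝ) ^ 182 / q * ∑ b ∈ Icc q M, ((b : ℝ) ^ 2)⁻¹ ≤ 2 ^ 182 / q * 1 :=
        mul_le_mul_of_nonneg_left hS (by positivity)
    _ < 1 := by
        rw [mul_one, div_lt_one (by positivity)]
        exact lt_of_lt_of_le (pow_lt_pow_right₀ (by norm_num) (by norm_num)) hqR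

/-- sets of candidates with approximations of a given quality -/
def ZB (u0 : ℝ) (w q n : ℕ) : Set ℕ :=
  {x | ∃ y : ℕ, ∃ a : ℤ, ∃ b : ℕ, Cand u0 x y ∧ Bad w q (u0 * r x y) a b ∧
    |u0 * r x y - a / b| ≤ 1 / 2 ^ (400 * 4 ^ (n - 1)) ∧
    1 / 2 ^ (400 * 4 ^ n) < |u0 * r x y - a / b|}

/-- the next convergent -/
theorem next (x0 y0 : ℕ) (he : 50 ≤ x0 + y0) (h1 : 1 ≤ r x0 y0) (h2 : r x0 y0 ≤ 2) :
    ∃ x y : ℕ, 1 / (32 * ((2 : ℝ) ^ (20 * (x0 + y0))) ^ 2) ≤ r (x0 + x) (y0 + y) - r x0 y0 ∧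
      r (x0 + x) (y0 + y) - r x0 y0 ≤ 1 / (4 * ((2 : ℝ) ^ (20 * (x0 + y0))) ^ 2) ∧
      ∀ b : ℕ, 2 ^ (20 * (x0 + y0)) ≤ b → ∀ a : ℤ, (a : ℝ) / b ≠ r (x0 + x) (y0 + y) →
        1 / (b : ℝ) ^ 62641 ≤ |r (x0 + x) (y0 + y) - a / b| := by
  obtain ⟨e, hee⟩ : ∃ e, 20 * (x0 + y0) = e := ⟨_, rfl⟩
  rw [hee]
  have he2 : 1000 ≤ e := by omega
  obtain ⟨w, hw⟩ : ∃ w : ℕ, w = 62641 := ⟨_, rfl⟩
  rw [← hw]
  set u0 := r x0 y0 with hu0
  set q : ℕ := 2 ^ e with hq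
  have hqe : ((2 : ℝ) ^ e) = q := by rw [hq]; push_cast; rfl
  rw [hqe]
  have hq1 : 2 ^ 200 ≤ q := Nat.pow_le_pow_right (by norm_num) (by omega)
  have hq500 : 2 ^ 500 ≤ q := Nat.pow_le_pow_right (by norm_num) (by omega)
  have hq2 : 2 ≤ q := by
    have : 2 ^ 1 ≤ q := Nat.pow_le_pow_right (by norm_num) (by omega)
    omega
  have hqR : (2 : ℝ) ^ 200 ≤ q := by exact_mod_cast hq1
  have hqR1 : (1 : ℝ) ≤ q := le_trans (one_le_pow₀ (by norm_num)) hqR
  obtain ⟨n0, hn0⟩ : ∃ n0, n0 = 176 * e := ⟨_, rfl⟩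
  obtain ⟨n1, hn1⟩ : ∃ n1, n1 = 180 * (400 * 4 ^ n0) := ⟨_, rfl⟩
  have hn0lt : n0 < 4 ^ n0 := Nat.lt_pow_self (by norm_num)
  have hn1lt : n1 < 4 ^ n1 := Nat.lt_pow_self (by norm_num)
  have hn01 : n0 ≤ n1 := by omega
  -- the tree
  obtain ⟨t, ht1, ht2⟩ := Tree.tree 180 n0 n1 hn01 (Icc q (2 ^ (400 * 4 ^ n0)))
    (by
      intro b hb
      rw [mem_Icc] at hb
      have h3 : e ≤ Nat.log 2 b := by
        rw [← Nat.log_pow (by norm_num : 1 < 2) e]
        exact Nat.log_mono_right hb.1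
      omega)
    (by
      intro b hb
      rw [mem_Icc] at hb
      have h3 : Nat.log 2 b ≤ 400 * 4 ^ n0 := by
        rw [← Nat.log_pow (by norm_num : 1 < 2) (400 * 4 ^ n0)]
        exact Nat.log_mono_right hb.2
      rw [hn1]
      exact Nat.mul_le_mul_left _ h3)
    (XB u0 w)
    (by
      intro b hb n hn t
      rw [mem_Icc] at hb
      exact XB_cnt h1 (by omega) (hq500.trans hb.1) hn t)
    (ZB u0 w q)
    (by
      rintro n - - x ⟨y, a, b, hc, hb, hb1, hb2⟩ x' ⟨y', a', b', hc', hb', hb1', hb2'⟩ hx hxx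
      exact cluster h1 h2 (by omega) hq2 hc hc' hx hxx hb hb' hb1 hb2 hb1' hb2')
    (by
      rw [hn0]
      exact sum_small e _ he2)
  -- the candidate
  have hA : (0 : ℝ) ≤ 1 / ((32 * q ^ 2 : ℕ) : ℝ) := by positivity
  have hsmall : 1 / ((32 * q ^ 2 : ℕ) : ℝ) + 1 / ((32 * q ^ 2 : ℕ) : ℝ) < 1 / 2 ^ 22 := by
    push_cast
    have h4 : (2 : ℝ) ^ 23 < 32 * (q : ℝ) ^ 2 := by
      have : (2 : ℝ) ^ 23 < 2 ^ 200 := pow_lt_pow_right₀ (by norm_num) (by norm_num)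
      nlinarith
    have h5 : 1 / (32 * (q : ℝ) ^ 2) < 1 / 2 ^ 23 :=
      one_div_lt_one_div_of_lt (by positivity) h4
    have h6 : (1 : ℝ) / 2 ^ 22 = 1 / 2 ^ 23 + 1 / 2 ^ 23 := by norm_num
    linarith
  obtain ⟨x, y, hx1, hx2, hyx, hl, hu⟩ := cand (1 / ((32 * q ^ 2 : ℕ) : ℝ)) (32 * q ^ 2)
    (by have := Nat.one_le_pow 2 q (by omega); omega) hA
    (hsmall.trans_le ((by norm_num : (1 : ℝ) / 2 ^ 22 ≤ 1 / 2 ^ 21).trans L1_pos)) t (4 ^ n0)
    (by
      rw [hn0, hq]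
      have e1 : 2 ^ 111 * (32 * (2 ^ e) ^ 2) ^ 175 = 2 ^ (986 + 350 * e) := by
        rw [show (32 : ℕ) = 2 ^ 5 by norm_num, mul_pow, ← pow_mul, ← pow_mul, ← pow_mul, ← pow_add,
          ← pow_add]
        congr 1
        ring
      have e2 : 4 ^ (176 * e) = 2 ^ (352 * e) := by
        rw [show (4 : ℕ) = 2 ^ 2 by norm_num, ← pow_mul]
        congr 1
        ring
      rw [e1, e2]
      have e3 : 2 ^ (986 + 350 * e) < 2 ^ (352 * e) :=
        Nat.pow_lt_pow_right (by norm_num) (by omega)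
      omega)
  have hcand : Cand u0 x y := ⟨hyx, by linarith, by linarith⟩
  obtain ⟨hX, hZ⟩ := ht2 x hx1 hx2
  have hre : r x y = Real.exp (x * L1 - y * L2) := by
    rw [← log_r, Real.exp_log (r_pos x y)]
  have hru : r (x0 + x) (y0 + y) = u0 * r x y := r_add x0 y0 x y
  refine ⟨x, y, ?_, ?_, ?_⟩
  · rw [hru]
    have h3 := Real.add_one_le_exp ((x : ℝ) * L1 - y * L2)
    rw [← hre] at h3
    push_cast at hl
    have h4 : 1 / (32 * (q : ℝ) ^ 2) ≤ r x y - 1 := by linarith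
    have h5 : 0 ≤ r x y - 1 := le_trans (by positivity) h4
    nlinarith
  · rw [hru]
    have h3 := exp_le hcand.lo hcand.hi.le
    rw [← hre] at h3
    push_cast at hu
    have h4 : r x y - 1 ≤ 2 * (2 * (1 / (32 * (q : ℝ) ^ 2))) := by linarith
    have h5 : 0 ≤ r x y - 1 := by linarith [hcand.r_bounds.1]
    have h6 : 1 / (4 * (q : ℝ) ^ 2) = 2 * (2 * (2 * (1 / (32 * (q : ℝ) ^ 2)))) := by
      field_simp; norm_num
    rw [h6]
    nlinarith
  · intro b hb a hne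
    by_contra hlt
    push Not at hlt
    rw [hru] at hlt hne
    have hbad : Bad w q (u0 * r x y) a b := ⟨hb, hne, hlt⟩
    have hb0 : 0 < b := by omega
    have hbR : (1 : ℝ) ≤ b := by exact_mod_cast hb0
    set δ := |u0 * r x y - a / b| with hδ
    have hδ0 : 0 < δ := hbad.pos
    have hu1 : 1 ≤ u0 * r x y := by nlinarith [hcand.r_bounds.1]
    have hu3 : u0 * r x y ≤ 3 := by
      have h3 := hcand.r_bounds.2
      have h4 : (1 : ℝ) / 2 ^ 21 ≤ 1 / 2 := by norm_num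
      have h5 := hcand.r_bounds.1
      nlinarith
    have hnum := hbad.num hq2 (by omega) hu1 hu3
    -- the trivial lower bound
    have hlow : 1 / (2 : ℝ) ^ (400 * 4 ^ n1) < δ := by
      have h3 := r_dist (x0 + x) (y0 + y) a b hb0 (by rw [hru]; exact hne)
      rw [hru, ← hδ, ← pow_mul] at h3
      set S := x0 + x + (y0 + y) with hS
      have h4 : (1 : ℝ) / 2 ^ (20 * S) ≤ δ * b := by
        rw [div_le_iff₀ (by positivity)] at h3 ⊢
        linarith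
      have h5 : (b : ℝ) ^ 2 * δ < 1 := by
        have h6 : (b : ℝ) ^ 2 ≤ (b : ℝ) ^ w := pow_le_pow_right₀ hbR (by omega)
        rw [lt_div_iff₀ (by positivity)] at hlt
        nlinarith
      have h6 : (1 / (2 : ℝ) ^ (20 * S)) ^ 2 ≤ (δ * b) ^ 2 := pow_le_pow_left₀ (by positivity) h4 2
      have h7 : (δ * b) ^ 2 < δ := by
        have : (δ * b) ^ 2 = δ * ((b : ℝ) ^ 2 * δ) := by ring
        rw [this]
        nlinarith
      refine lt_of_le_of_lt ?_ (h6.trans_lt h7)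
      rw [div_pow, one_pow, ← pow_mul]
      apply one_div_le_one_div_of_le (by positivity)
      apply pow_le_pow_right₀ (by norm_num)
      omega
    by_cases hδ1 : 1 / (2 : ℝ) ^ (400 * 4 ^ n0) < δ
    · have h3 := hbad.pow_lt (by omega) (by positivity) hδ1
      have h4 : b ∈ Icc q (2 ^ (400 * 4 ^ n0)) := by
        rw [mem_Icc]
        refine ⟨hb, ?_⟩
        have h5 : (b : ℝ) ≤ (b : ℝ) ^ w := le_self_pow₀ hbR (by omega)
        have h6 : (b : ℝ) < 2 ^ (400 * 4 ^ n0) := lt_of_le_of_lt h5 h3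
        exact_mod_cast h6.le
      exact hX b h4 ⟨y, hcand, a, hnum.1, hnum.2, hlt⟩
    · push Not at hδ1
      have hex : ∃ n, n0 ≤ n ∧ n < n1 ∧ δ ≤ 1 / 2 ^ (400 * 4 ^ n) ∧
          1 / 2 ^ (400 * 4 ^ (n + 1)) < δ := by
        by_contra hcon
        push Not at hcon
        have hind : ∀ n, n0 ≤ n → n ≤ n1 → δ ≤ 1 / 2 ^ (400 * 4 ^ n) := by
          intro n hn
          induction n, hn using Nat.le_induction with
          | base => intro _; exact hδ1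
          | succ n hn ih =>
            intro hle
            exact hcon n hn (by omega) (ih (by omega))
        have := hind n1 hn01 le_rfl
        linarith
      obtain ⟨n, hn1', hn2', hn3, hn4⟩ := hex
      exact hZ n hn1' hn2' ⟨y, a, b, hcand, hbad, hn3, hn4⟩

end Pool.Agent.TH461.EM
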