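import Mathlib
import Pool.Agent.TH461.EM.Next
import Pool.Agent.TH461.EM.CF

/-!
An irrational number with infinitely many convergents composed of a fixed finite set of primes which
is not a Liouville number.
-/

set_option autoImplicit false

open Filter Topology

namespace Pool.Agent.TH461.EM

/-- the denominator -/
def qq (x y : ℕ) : ℕ := 2 ^ (20 * (x + y))

lemma qq_cast (x y : ℕ) : ((qq x y : ℕ) : ℝ) = (2 : ℝ) ^ (20 * (x + y)) := by
  unfold qq; push_cast; rfl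

/-- the numerator -/
def pp (x y : ℕ) : ℤ := (2 ^ 20 + 1) ^ x * (2 ^ 20 - 1) ^ y

lemma r_eq (x y : ℕ) : r x y = (pp x y : ℝ) / (qq x y : ℝ) := by
  rw [qq_cast, pow_mul]
  unfold r pp
  simp only [Int.cast_sub, Int.cast_mul, Int.cast_pow, Int.cast_add, Int.cast_ofNat,
    Int.cast_one]

lemma cop (x y : ℕ) : IsCoprime (pp x y) (qq x y : ℤ) := by
  unfold pp qq
  push_cast
  rw [pow_mul]
  apply IsCoprime.pow_right
  apply IsCoprime.mul_left
  · exact IsCoprime.pow_left ⟨1, -1, by ring⟩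
  · exact IsCoprime.pow_left ⟨-1, 1, by ring⟩

/-- a rational number with smaller denominator is different -/
lemma ne_small (x y : ℕ) (a : ℤ) (b : ℕ) (hb : 0 < b) (hlt : b < qq x y) : (a : ℝ) / b ≠ r x y := by
  intro h
  rw [r_eq] at h
  have hb0 : (b : ℝ) ≠ 0 := by exact_mod_cast hb.ne'
  have hq0 : ((qq x y : ℕ) : ℝ) ≠ 0 := by
    rw [qq_cast]; positivity
  rw [div_eq_div_iff hb0 hq0] at h
  have h2 : a * (qq x y : ℤ) = pp x y * b := by exact_mod_cast h
  have h3 : (qq x y : ℤ) ∣ b := (cop x y).symm.dvd_of_dvd_mul_left (Dvd.intro_left _ h2)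
  have h4 : qq x y ∣ b := by exact_mod_cast h3
  have := Nat.le_of_dvd hb h4
  omega

/-- the states of the construction -/
structure St where
  x : ℕ
  y : ℕ
  big : 50 ≤ x + y
  lo : 1 ≤ r x y
  hi : r x y ≤ 2 - 1 / (qq x y : ℝ)

/-- the value -/
noncomputable def St.v (s : St) : ℝ := r s.x s.y

/-- the denominator -/
def St.q (s : St) : ℕ := qq s.x s.y

lemma St.q_pos (s : St) : (0 : ℝ) < s.q := by
  unfold St.q
  rw [qq_cast]; positivity

lemma exists_next (s : St) : ∃ s' : St, 4 * s.q ≤ s'.q ∧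
    1 / (32 * (s.q : ℝ) ^ 2) ≤ s'.v - s.v ∧ s'.v - s.v ≤ 1 / (4 * (s.q : ℝ) ^ 2) ∧
    ∀ b : ℕ, s.q ≤ b → ∀ a : ℤ, (a : ℝ) / b ≠ s'.v → 1 / (b : ℝ) ^ 62641 ≤ |s'.v - a / b| := by
  have hq0 := s.q_pos
  obtain ⟨dx, dy, h1, h2, h3⟩ := next s.x s.y s.big s.lo
    (s.hi.trans (by
      have : (0 : ℝ) < 1 / (qq s.x s.y : ℝ) := by
        have := s.q_pos
        unfold St.q at this
        positivity
      linarith))
  rw [← qq_cast] at h1 h2
  change 1 / (32 * (s.q : ℝ) ^ 2) ≤ _ at h1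
  change _ ≤ 1 / (4 * (s.q : ℝ) ^ 2) at h2
  have hb : 0 < s.q := by exact_mod_cast hq0
  -- growth of the denominator
  have hpos : 0 < r (s.x + dx) (s.y + dy) - r s.x s.y := lt_of_lt_of_le (by positivity) h1
  have hd := r_dist (s.x + dx) (s.y + dy) (pp s.x s.y) s.q hb (by
    have := r_eq s.x s.y
    unfold St.q
    rw [← this]
    linarith [hpos])
  have hr := r_eq s.x s.y
  unfold St.q at hd
  rw [← hr, abs_of_pos hpos] at hd
  change 1 / ((s.q : ℝ) * _) ≤ _ at hd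
  rw [← pow_mul, ← qq_cast] at hd
  have hq' : (0 : ℝ) < qq (s.x + dx) (s.y + dy) := by rw [qq_cast]; positivity
  have h4 : (4 : ℝ) * s.q ≤ qq (s.x + dx) (s.y + dy) := by
    have h5 := hd.trans h2
    rw [div_le_div_iff₀ (by positivity) (by positivity)] at h5
    have h6 : (s.q : ℝ) * (4 * s.q) ≤ s.q * qq (s.x + dx) (s.y + dy) := by
      linarith
    exact le_of_mul_le_mul_left h6 hq0
  refine ⟨⟨s.x + dx, s.y + dy, by have := s.big; omega, by have := s.lo; linarith, ?_⟩, ?_, h1, h2,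
    ?_⟩
  · have h5 := s.hi
    change r s.x s.y ≤ 2 - 1 / (s.q : ℝ) at h5
    have hq1 : (1 : ℝ) ≤ s.q := by exact_mod_cast hb
    have h6 : 1 / (4 * (s.q : ℝ) ^ 2) ≤ 1 / (4 * s.q) :=
      one_div_le_one_div_of_le (by positivity) (by nlinarith)
    have h7 : 1 / (qq (s.x + dx) (s.y + dy) : ℝ) ≤ 1 / (4 * s.q) :=
      one_div_le_one_div_of_le (by positivity) h4
    have h8 : 1 / (s.q : ℝ) = 4 * (1 / (4 * s.q)) := by field_simp
    have h9 : 0 < 1 / (4 * (s.q : ℝ)) := by positivity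
    linarith
  · unfold St.q at h4 ⊢
    exact_mod_cast h4
  · intro b hb2 a hne
    exact h3 b hb2 a hne

noncomputable def nxt (s : St) : St := (exists_next s).choose

lemma nxt_spec (s : St) : 4 * s.q ≤ (nxt s).q ∧
    1 / (32 * (s.q : ℝ) ^ 2) ≤ (nxt s).v - s.v ∧ (nxt s).v - s.v ≤ 1 / (4 * (s.q : ℝ) ^ 2) ∧
    ∀ b : ℕ, s.q ≤ b → ∀ a : ℤ, (a : ℝ) / b ≠ (nxt s).v →
      1 / (b : ℝ) ^ 62641 ≤ |(nxt s).v - a / b| := (exists_next s).choose_spec

lemma exists_init : Nonempty St := by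
  obtain ⟨x, y, h1, -, h3, h4, h5⟩ := cand 0 (2 ^ 22) (by norm_num) le_rfl
    (lt_of_lt_of_le (by norm_num) L1_pos) 50 (2 ^ 111 * (2 ^ 22) ^ 175 + 1) le_rfl
  have hc : r x y = Real.exp (x * L1 - y * L2) := by
    rw [← log_r, Real.exp_log (r_pos x y)]
  have h6 : (x : ℝ) * L1 - y * L2 ≤ 1 / 2 ^ 22 := by
    refine h5.trans (le_of_eq ?_)
    norm_num
  refine ⟨⟨x, y, by omega, ?_, ?_⟩⟩
  · rw [hc]; exact Real.one_le_exp h4
  · rw [hc]
    have h7 := exp_le h4 h6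
    have h8 : (1 : ℝ) ≤ qq x y := by
      rw [qq_cast]; exact one_le_pow₀ (by norm_num)
    have h9 : (4 : ℝ) ≤ qq x y := by
      rw [qq_cast]
      calc (4 : ℝ) = 2 ^ 2 := by norm_num
        _ ≤ 2 ^ (20 * (x + y)) := pow_le_pow_right₀ (by norm_num) (by omega)
    have h10 : 1 / (qq x y : ℝ) ≤ 1 / 4 := one_div_le_one_div_of_le (by norm_num) h9
    have h11 : (1 : ℝ) / 2 ^ 22 ≤ 1 / 8 := by norm_num
    linarith

noncomputable def seq (k : ℕ) : St := nxt^[k] exists_init.some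

lemma seq_succ (k : ℕ) : seq (k + 1) = nxt (seq k) := by
  unfold seq
  rw [Function.iterate_succ_apply']

lemma seq_q (k : ℕ) : 4 * (seq k).q ≤ (seq (k + 1)).q := by
  rw [seq_succ]; exact (nxt_spec _).1

lemma seq_qR (k : ℕ) : 4 * ((seq k).q : ℝ) ≤ (seq (k + 1)).q := by exact_mod_cast seq_q k

lemma seq_lo (k : ℕ) : 1 / (32 * ((seq k).q : ℝ) ^ 2) ≤ (seq (k + 1)).v - (seq k).v := by
  rw [seq_succ]; exact (nxt_spec _).2.1

lemma seq_hi (k : ℕ) : (seq (k + 1)).v - (seq k).v ≤ 1 / (4 * ((seq k).q : ℝ) ^ 2) := by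
  rw [seq_succ]; exact (nxt_spec _).2.2.1

lemma seq_far (k : ℕ) : ∀ b : ℕ, (seq k).q ≤ b → ∀ a : ℤ, (a : ℝ) / b ≠ (seq (k + 1)).v →
      1 / (b : ℝ) ^ 62641 ≤ |(seq (k + 1)).v - a / b| := by
  rw [seq_succ]; exact (nxt_spec _).2.2.2

lemma seq_mono : Monotone fun k => (seq k).v := by
  apply monotone_nat_of_le_succ
  intro k
  have h1 := seq_lo k
  have h2 : 0 < 1 / (32 * ((seq k).q : ℝ) ^ 2) := by
    have := (seq k).q_pos
    positivity
  linarith

lemma seq_smono (k : ℕ) : (seq k).v < (seq (k + 1)).v := by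
  have h1 := seq_lo k
  have h2 : 0 < 1 / (32 * ((seq k).q : ℝ) ^ 2) := by
    have := (seq k).q_pos
    positivity
  linarith

lemma seq_anti : Antitone fun k => (seq k).v + 1 / (3 * ((seq k).q : ℝ) ^ 2) := by
  apply antitone_nat_of_succ_le
  intro k
  have h1 := seq_hi k
  have h2 := seq_qR k
  have h3 := (seq k).q_pos
  have h4 : 1 / (3 * ((seq (k + 1)).q : ℝ) ^ 2) ≤ 1 / (3 * (4 * ((seq k).q : ℝ)) ^ 2) := by
    apply one_div_le_one_div_of_le (by positivity)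
    apply mul_le_mul_of_nonneg_left _ (by norm_num)
    exact pow_le_pow_left₀ (by positivity) h2 2
  have h5 : 1 / (3 * (4 * ((seq k).q : ℝ)) ^ 2) = (1 / 48) * (1 / ((seq k).q : ℝ) ^ 2) := by
    field_simp; norm_num
  have h6 : 1 / (4 * ((seq k).q : ℝ) ^ 2) = (1 / 4) * (1 / ((seq k).q : ℝ) ^ 2) := by
    field_simp
  have h7 : 1 / (3 * ((seq k).q : ℝ) ^ 2) = (1 / 3) * (1 / ((seq k).q : ℝ) ^ 2) := by
    field_simp
  have h8 : 0 < 1 / ((seq k).q : ℝ) ^ 2 := by positivity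
  rw [h5] at h4
  rw [h6] at h1
  rw [h7]
  linarith

lemma seq_le (j k : ℕ) : (seq j).v ≤ (seq k).v + 1 / (3 * ((seq k).q : ℝ) ^ 2) := by
  rcases le_total j k with h | h
  · have h1 := seq_mono h
    simp only at h1
    have h2 : 0 < 1 / (3 * ((seq k).q : ℝ) ^ 2) := by
      have := (seq k).q_pos
      positivity
    linarith
  · have h1 := seq_anti h
    simp only at h1
    have h2 : 0 < 1 / (3 * ((seq j).q : ℝ) ^ 2) := by
      have := (seq j).q_pos
      positivity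
    linarith

/-- the number -/
noncomputable def xi : ℝ := ⨆ k, (seq k).v

lemma bdd : BddAbove (Set.range fun k => (seq k).v) := by
  refine ⟨(seq 0).v + 1 / (3 * ((seq 0).q : ℝ) ^ 2), ?_⟩
  rintro _ ⟨j, rfl⟩
  exact seq_le j 0

lemma xi_lo (k : ℕ) : (seq k).v < xi :=
  lt_of_lt_of_le (seq_smono k) (le_ciSup bdd (k + 1))

lemma xi_hi (k : ℕ) : xi ≤ (seq k).v + 1 / (3 * ((seq k).q : ℝ) ^ 2) :=
  ciSup_le fun j => seq_le j k

lemma q_grow (k : ℕ) : 4 ^ k ≤ (seq k).q := by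
  induction k with
  | zero =>
    have := (seq 0).q_pos
    have h : 0 < (seq 0).q := by exact_mod_cast this
    rw [pow_zero]
    omega
  | succ k ih =>
    have := seq_q k
    rw [pow_succ]
    omega

/-- `xi` is not very well approximable -/
lemma xi_far (b : ℕ) (hb : (seq 0).q ≤ b) (a : ℤ) :
    1 / (2 * (b : ℝ) ^ 62642) ≤ |xi - a / b| := by
  obtain ⟨w, hw⟩ : ∃ w : ℕ, w = 62641 := ⟨_, rfl⟩
  rw [show 62642 = w + 1 by omega]
  have h0 : 0 < (seq 0).q := by exact_mod_cast (seq 0).q_pos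
  have hb0 : 0 < b := by omega
  have hbR : (1 : ℝ) ≤ b := by exact_mod_cast hb0
  -- the index
  obtain ⟨k, hk1, hk2⟩ : ∃ k, (seq k).q ≤ b ∧ b < (seq (k + 1)).q := by
    by_contra hcon
    push Not at hcon
    have hall : ∀ k, (seq k).q ≤ b := by
      intro k
      induction k with
      | zero => exact hb
      | succ k ih => exact hcon k ih
    have h1 := hall b
    have h2 := q_grow b
    have h3 : b < 4 ^ b := Nat.lt_pow_self (by norm_num)
    omega
  set Q := (seq (k + 1)).q with hQ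
  have hQ0 : (0 : ℝ) < Q := (seq (k + 1)).q_pos
  have hbQ : (b : ℝ) < Q := by exact_mod_cast hk2
  have hne : (a : ℝ) / b ≠ (seq (k + 1)).v := ne_small _ _ a b hb0 hk2
  have h1 := seq_far k b hk1 a hne
  rw [← hw] at h1
  have h2 : 1 / ((b : ℝ) * Q) ≤ |(seq (k + 1)).v - a / b| := by
    have h3 := r_dist (seq (k + 1)).x (seq (k + 1)).y a b hb0 hne
    rw [← pow_mul, ← qq_cast] at h3
    exact h3
  have h3 : |xi - (seq (k + 1)).v| ≤ 1 / (3 * (Q : ℝ) ^ 2) := by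
    have h4 := xi_lo (k + 1)
    have h5 := xi_hi (k + 1)
    rw [abs_of_pos (by linarith)]
    linarith
  have h4 : |(seq (k + 1)).v - a / b| ≤ |xi - a / b| + |xi - (seq (k + 1)).v| := by
    have e : (seq (k + 1)).v - a / b = (xi - a / b) - (xi - (seq (k + 1)).v) := by ring
    rw [e]
    exact abs_sub _ _
  have hbw : (1 : ℝ) ≤ (b : ℝ) ^ w := one_le_pow₀ hbR
  rcases le_total ((b : ℝ) ^ w) Q with hc | hc
  · -- large gap
    have h5 : 1 / (3 * (Q : ℝ) ^ 2) ≤ 1 / (3 * (b : ℝ) ^ w) := by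
      apply one_div_le_one_div_of_le (by positivity)
      nlinarith
    have h6 : 1 / (3 * (b : ℝ) ^ w) = (1 / 3) * (1 / (b : ℝ) ^ w) := by field_simp
    have h7 : 1 / (2 * (b : ℝ) ^ (w + 1)) ≤ (1 / 2) * (1 / (b : ℝ) ^ w) := by
      have : (1 / 2) * (1 / (b : ℝ) ^ w) = 1 / (2 * (b : ℝ) ^ w) := by field_simp
      rw [this]
      apply one_div_le_one_div_of_le (by positivity)
      rw [pow_succ]
      nlinarith
    have h8 : 0 < 1 / (b : ℝ) ^ w := by positivity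
    linarith
  · have h5 : 1 / (3 * (Q : ℝ) ^ 2) ≤ 1 / (3 * (b * Q)) := by
      apply one_div_le_one_div_of_le (by positivity)
      nlinarith
    have h6 : 1 / (3 * ((b : ℝ) * Q)) = (1 / 3) * (1 / (b * Q)) := by field_simp
    have h7 : 1 / (2 * (b : ℝ) ^ (w + 1)) ≤ (1 / 2) * (1 / (b * Q)) := by
      have : (1 / 2) * (1 / ((b : ℝ) * Q)) = 1 / (2 * (b * Q)) := by field_simp
      rw [this]
      apply one_div_le_one_div_of_le (by positivity)
      rw [pow_succ]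
      nlinarith
    have h8 : 0 < 1 / ((b : ℝ) * Q) := by positivity
    linarith

/-- scaled version, for all denominators -/
lemma xi_far' (b : ℤ) (hb : 0 < b) (a : ℤ) :
    1 / (2 * ((b : ℝ) * (seq 0).q) ^ 62642) ≤ |xi - a / b| := by
  have h0 : 0 < (seq 0).q := by exact_mod_cast (seq 0).q_pos
  obtain ⟨b, rfl⟩ := Int.eq_ofNat_of_zero_le hb.le
  have hb' : 0 < b := by omega
  have h1 := xi_far (b * (seq 0).q) (Nat.le_mul_of_pos_left _ hb') (a * (seq 0).q)
  have hbR : (0 : ℝ) < b := by exact_mod_cast hb'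
  have hqR := (seq 0).q_pos
  have e : (((a * (seq 0).q : ℤ)) : ℝ) / ((b * (seq 0).q : ℕ) : ℝ) = a / b := by
    push_cast
    field_simp
  rw [e] at h1
  push_cast at h1 ⊢
  exact h1

lemma xi_irr : Irrational xi := by
  rintro ⟨t, ht⟩
  have h := xi_far' t.den (by exact_mod_cast t.den_pos) t.num
  have e : ((t.num : ℤ) : ℝ) / ((t.den : ℤ) : ℝ) = t := by
    push_cast
    exact (Rat.cast_def t).symm
  rw [e, ← ht, sub_self, abs_zero] at h
  have h1 : (0 : ℝ) < ((t.den : ℤ) : ℝ) := by exact_mod_cast t.den_pos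
  have h2 := (seq 0).q_pos
  have h3 : 0 < 1 / (2 * (((t.den : ℤ) : ℝ) * (seq 0).q) ^ 62642) :=
    one_div_pos.mpr (mul_pos (by norm_num) (pow_pos (mul_pos h1 h2) _))
  linarith

lemma xi_not_liouville : ¬ Liouville xi := by
  intro h
  obtain ⟨w, hw⟩ : ∃ w : ℕ, w = 62642 := ⟨_, rfl⟩
  set q0 : ℝ := ((seq 0).q : ℝ) with hq0
  have hq0p : 0 < q0 := (seq 0).q_pos
  obtain ⟨m, hm⟩ := pow_unbounded_of_one_lt (2 * q0 ^ w) (by norm_num : (1 : ℝ) < 2)
  obtain ⟨a, b, hb, hne, hlt⟩ := h (w + m)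
  have h1 := xi_far' b (by omega) a
  rw [← hw, ← hq0] at h1
  have hbR : (2 : ℝ) ≤ b := by exact_mod_cast (by omega : 2 ≤ b)
  have hb0 : (0 : ℝ) < b := by linarith
  have h2 : 1 / (2 * ((b : ℝ) * q0) ^ w) < 1 / (b : ℝ) ^ (w + m) := lt_of_le_of_lt h1 hlt
  rw [div_lt_div_iff₀ (by positivity) (by positivity), one_mul, one_mul, mul_pow, pow_add] at h2
  have h3 : (2 : ℝ) ^ m ≤ (b : ℝ) ^ m := pow_le_pow_left₀ (by norm_num) hbR m
  have h4 : (b : ℝ) ^ w * (2 * q0 ^ w) < (b : ℝ) ^ w * (b : ℝ) ^ m :=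
    mul_lt_mul_of_pos_left (lt_of_lt_of_le hm h3) (by positivity)
  linarith

/-- the convergents -/
lemma xi_conv (k : ℕ) : ∃ n : ℕ, (pp (seq k).x (seq k).y : ℝ) / ((qq (seq k).x (seq k).y : ℤ) : ℝ) =
    (GenContFract.of xi).convs n := by
  set P := pp (seq k).x (seq k).y with hP
  set Q := qq (seq k).x (seq k).y with hQ
  have hQ0 : 0 < Q := by unfold Q qq; positivity
  have hcop : Nat.Coprime P.natAbs (Q : ℤ).natAbs := Int.isCoprime_iff_gcd_eq_one.mp (cop _ _)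
  have hden : (((P : ℚ) / ((Q : ℤ) : ℚ)).den : ℤ) = Q :=
    Rat.den_div_eq_of_coprime (by exact_mod_cast hQ0) hcop
  have hv : (seq k).v = (P : ℝ) / Q := r_eq _ _
  have h1 := xi_lo k
  have h2 := xi_hi k
  have hQR : (0 : ℝ) < Q := by exact_mod_cast hQ0
  obtain ⟨n, hn⟩ := Real.exists_rat_eq_convergent (ξ := xi) (q := (P : ℚ) / ((Q : ℤ) : ℚ)) (by
    have e1 : (((P : ℚ) / ((Q : ℤ) : ℚ) : ℚ) : ℝ) = (seq k).v := by
      rw [hv]; push_cast; rfl
    have e2 : ((((P : ℚ) / ((Q : ℤ) : ℚ)).den : ℕ) : ℝ) = Q := by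
      have : (((P : ℚ) / ((Q : ℤ) : ℚ)).den) = Q := by exact_mod_cast hden
      rw [this]
    rw [e1, e2, abs_of_pos (by linarith)]
    have h3 : 1 / (3 * (Q : ℝ) ^ 2) < 1 / (2 * (Q : ℝ) ^ 2) := by
      apply one_div_lt_one_div_of_lt (by positivity)
      nlinarith [pow_pos hQR 2]
    change xi ≤ (seq k).v + 1 / (3 * (Q : ℝ) ^ 2) at h2
    linarith)
  refine ⟨n, ?_⟩
  rw [Real.convs_eq_convergent, ← hn]
  push_cast
  rfl

lemma prime_bound {x y p : ℕ} (hp : p.Prime)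
    (h : p ∣ (pp x y).natAbs ∨ p ∣ ((qq x y : ℤ)).natAbs) : p ≤ 2 ^ 20 + 1 := by
  rcases h with h | h
  · have h1 : (pp x y).natAbs = (2 ^ 20 + 1) ^ x * (2 ^ 20 - 1) ^ y := by
      have : pp x y = (((2 ^ 20 + 1) ^ x * (2 ^ 20 - 1) ^ y : ℕ) : ℤ) := by
        unfold pp
        rw [Nat.cast_mul, Nat.cast_pow, Nat.cast_pow, Nat.cast_sub (by norm_num)]
        push_cast
        rfl
      rw [this, Int.natAbs_natCast]
    rw [h1, hp.dvd_mul] at h
    rcases h with h | h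
    · exact Nat.le_of_dvd (by norm_num) (hp.dvd_of_dvd_pow h)
    · exact (Nat.le_of_dvd (by norm_num) (hp.dvd_of_dvd_pow h)).trans (by norm_num)
  · rw [Int.natAbs_natCast] at h
    have h1 := hp.dvd_of_dvd_pow h
    have := Nat.le_of_dvd (by norm_num) h1
    omega

/-- **Theorem.** -/
theorem main : Irrational xi ∧ ¬ Liouville xi ∧ ∀ N : ℕ, ∃ n ≥ N, ∃ a b : ℤ,
    (a : ℝ) = (GenContFract.of xi).nums n ∧ (b : ℝ) = (GenContFract.of xi).dens n ∧
    ∀ p : ℕ, p.Prime → (p ∣ a.natAbs ∨ p ∣ b.natAbs) → p ≤ 2 ^ 20 + 1 := by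
  refine ⟨xi_irr, xi_not_liouville, fun N => ?_⟩
  choose f hf using xi_conv
  -- infinitely many indices
  have hinj : Function.Injective f := by
    intro j k hjk
    have h1 := hf j
    rw [hjk, ← hf k] at h1
    have h2 : (seq j).v = (seq k).v := by
      have e1 : (seq j).v = _ := r_eq _ _
      have e2 : (seq k).v = _ := r_eq _ _
      rw [e1, e2]
      push_cast at h1
      exact h1
    have hs : StrictMono fun k => (seq k).v := strictMono_nat_of_lt_succ seq_smono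
    exact hs.injective h2
  obtain ⟨k, hk⟩ : ∃ k, N ≤ f k := by
    by_contra hcon
    push Not at hcon
    have hfin : (Set.range f).Finite := (Set.finite_Iio N).subset (by
      rintro _ ⟨k, rfl⟩
      exact hcon k)
    exact Set.infinite_range_of_injective hinj hfin
  obtain ⟨a, b, ha, hb, hab⟩ := CF.coprime_conv xi xi_irr (f k)
  have hQ0 : (0 : ℤ) < (qq (seq k).x (seq k).y : ℤ) := by
    unfold qq; positivity
  have hb0 : b ≠ 0 := by
    intro h0
    have h1 := hf k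
    rw [GenContFract.conv_eq_num_div_den, ← hb, h0] at h1
    simp only [Int.cast_zero, div_zero] at h1
    have h2 := (seq k).lo
    rw [r_eq] at h2
    push_cast at h1
    rw [h1] at h2
    linarith
  obtain ⟨e1, e2⟩ := CF.conv_eq (cop (seq k).x (seq k).y) hQ0 (hf k) ha hb hab hb0
  refine ⟨f k, hk, a, b, ha, hb, ?_⟩
  intro p hp hdiv
  rw [e1, e2] at hdiv
  exact prime_bound hp hdiv

end Pool.Agent.TH461.EM
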